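import Pool.Agent.U481.HW.Nec
import Pool.Agent.U873.HW.Weak
import Pool.Agent.U399.HW.Strong
import Pool.Agent.U433.HW.MUCK
import Pool.Agent.U7.HW.Whil
import Pool.Agent.U7.HW.Lin2
import Pool.Agent.U211.HW.Kernel
import Pool.Agent.U111.HW.Stop
import Pool.Agent.U263.HW.STEP
import Pool.Agent.U195.HW.Iter
import Pool.Agent.U83.HW.SUM
import Pool.Agent.U901.HW.HMW
import Pool.Agent.U876.HW.EXT
import Pool.Agent.U606.HW.SUF
import Pool.Agent.U890.HW.DBL
import Pool.Agent.U464.HW.Pos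
import Pool.Agent.U346.HW.One
import Pool.Agent.U312.HW.TWO

set_option autoImplicit false

open MeasureTheory Filter Topology Set
open scoped ENNReal NNReal

namespace Pool.Agent.U481.HW

theorem admissible_iff (p : ℝ) (hp : 1 < p) (U : ℝ → ℝ≥0) (hU : IsWeight U) :
    Admissible p U ↔ Char p U :=
  assembly Pool.Agent.U873.HW.Weak.main Pool.Agent.U399.HW.Strong.main Pool.Agent.U433.HW.MUCK.main
    Pool.Agent.U7.HW.lin Pool.Agent.U7.HW.whil Pool.Agent.U211.HW.Kernel.main
    Pool.Agent.U111.HW.Stop.main Pool.Agent.U263.HW.STEP.main Pool.Agent.U195.HW.Iter.main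
    Pool.Agent.U83.HW.SUM.main Pool.Agent.U901.HW.main Pool.Agent.U876.HW.main
    Pool.Agent.U606.HW.SUF.main Pool.Agent.U890.HW.DBL.main Pool.Agent.U464.HW.main
    Pool.Agent.U346.HW.main Pool.Agent.U312.HW.TWO.main nec_main p hp U hU

end Pool.Agent.U481.HW
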