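import Pool.Agent.U481.HW.NecH

set_option autoImplicit false

open MeasureTheory Filter Topology Set
open scoped ENNReal NNReal

namespace Pool.Agent.U481.HW

theorem nec_main : S_dbl → S_pos → S_one → S_two → S_nec := by
  intro hd hpos ho ht p hp U hU hA
  obtain ⟨D, C1, C2, h⟩ := Nc.mk' hd hpos ho ht hp hU hA
  have hp1 : 0 < p - 1 := by linarith
  by_cases hcA : ∀ s : ℝ, vv p U (Tl 0 s) = ⊤
  · left
    refine ⟨hU, C1, h.C1fin, fun a b hab => ?_⟩
    have h1 := h.one a (b - a) (by linarith)
    have h2 : vv p U (Tl a (8 * (b - a))) = ⊤ := by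
      refine top_le_iff.1 ?_
      rw [← hcA (8 * (b - a) + |a|)]
      refine vv_mono p U ?_
      intro y hy
      simp only [Tl, mem_ofPred_eq, sub_zero] at hy ⊢
      have : |y| ≤ |y - a| + |a| := by
        calc |y| = |(y - a) + a| := by rw [sub_add_cancel]
          _ ≤ _ := abs_add_le _ _
      linarith
    rw [h2, min_eq_left le_top, show a + (b - a) = b by ring] at h1
    exact h1
  push Not at hcA
  obtain ⟨R0, hR0⟩ := hcA
  right
  by_cases hB : ∃ a : ℝ, ∀ s : ℝ, 0 < s → vv p U (Bl a s) = ⊤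
  · left
    obtain ⟨a, ha⟩ := hB
    obtain ⟨W, hW1, hW2⟩ := caseB h a ha
    exact ⟨a, W, hW1, hW2⟩
  · right
    push Not at hB
    refine caseC h ?_
    set μ : Measure ℝ := volume.withDensity (sg p U) with hμ
    have hμs : ∀ s, MeasurableSet s → μ s = vv p U s := fun s hs => withDensity_apply _ hs
    have hK : μ (Icc (-R0) R0) < ⊤ := by
      refine isCompact_Icc.measure_lt_top_of_nhdsWithin fun x _ => ?_
      obtain ⟨s, hs, hs2⟩ := hB x
      refine ⟨Bl x s, mem_nhdsWithin_of_mem_nhds (Ioo_mem_nhds (by linarith) (by linarith)), ?_⟩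
      rw [hμs (Bl x s) measurableSet_Ioo]
      exact lt_top_iff_ne_top.2 hs2
    rw [hμs _ measurableSet_Icc] at hK
    have hsub : (univ : Set ℝ) ⊆ Icc (-R0) R0 ∪ Tl 0 R0 := by
      intro y _
      by_cases hy : R0 < |y - 0|
      · right; exact hy
      · left
        push Not at hy
        have := abs_le.1 hy
        exact ⟨by linarith [this.1], by linarith [this.2]⟩
    refine lt_of_le_of_lt ((vv_mono p U hsub).trans (lintegral_union_le _ _ _)) ?_
    exact ENNReal.add_lt_top.2 ⟨hK, lt_top_iff_ne_top.2 hR0⟩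

end Pool.Agent.U481.HW
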