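import Pool.Agent.U481.HW.Stm

set_option autoImplicit false

open MeasureTheory Filter Topology Set
open scoped ENNReal NNReal

namespace Pool.Agent.U481.HW

/-- integral of `U` -/
noncomputable def uu (U : ℝ → ℝ≥0) (s : Set ℝ) : ℝ≥0∞ := ∫⁻ x in s, (U x : ℝ≥0∞)

/-- integral of the dual weight -/
noncomputable def vv (p : ℝ) (U : ℝ → ℝ≥0) (s : Set ℝ) : ℝ≥0∞ := ∫⁻ x in s, sg p U x

theorem uu_mono (U : ℝ → ℝ≥0) {s t : Set ℝ} (h : s ⊆ t) : uu U s ≤ uu U t := lintegral_mono_set h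

theorem vv_mono (p : ℝ) (U : ℝ → ℝ≥0) {s t : Set ℝ} (h : s ⊆ t) : vv p U s ≤ vv p U t :=
  lintegral_mono_set h

theorem sg_pos {p : ℝ} (hp : 1 < p) (U : ℝ → ℝ≥0) (x : ℝ) : 0 < sg p U x := by
  unfold sg
  have h : -1 / (p - 1) < 0 := div_neg_of_neg_of_pos (by norm_num) (by linarith)
  rw [show -1 / (p - 1) = -(1 / (p - 1)) by ring, ENNReal.rpow_neg]
  refine ENNReal.inv_pos.2 (ENNReal.rpow_ne_top_of_nonneg ?_ ENNReal.coe_ne_top)
  have : 0 < p - 1 := by linarith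
  positivity

theorem sg_meas {p : ℝ} {U : ℝ → ℝ≥0} (hU : Measurable U) : Measurable (sg p U) :=
  (hU.coe_nnreal_ennreal).pow_const _

theorem pos_of_ae {f : ℝ → ℝ≥0∞} (hf : Measurable f) (h0 : ∀ᵐ x, f x ≠ 0) {s : Set ℝ}
    (hs : volume s ≠ 0) : 0 < ∫⁻ x in s, f x := by
  rw [pos_iff_ne_zero]
  intro h
  rw [lintegral_eq_zero_iff hf] at h
  have h1 : ∀ᵐ x ∂(volume.restrict s), f x ≠ 0 := ae_restrict_of_ae h0
  have h2 : ∀ᵐ x ∂(volume.restrict s), False := by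
    filter_upwards [h, h1] with x hx hx'
    exact hx' hx
  rw [ae_iff] at h2
  simp only [not_false_eq_true, setOf_true, Measure.restrict_apply_univ] at h2
  exact hs h2

theorem uu_pos {U : ℝ → ℝ≥0} (hU : Measurable U) (h0 : ∀ᵐ x, U x ≠ 0) {s : Set ℝ}
    (hs : volume s ≠ 0) : 0 < uu U s := by
  refine pos_of_ae hU.coe_nnreal_ennreal ?_ hs
  filter_upwards [h0] with x hx
  exact_mod_cast hx

theorem vv_pos {p : ℝ} (hp : 1 < p) {U : ℝ → ℝ≥0} (hU : Measurable U) {s : Set ℝ}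
    (hs : volume s ≠ 0) : 0 < vv p U s :=
  pos_of_ae (sg_meas hU) (Eventually.of_forall fun x => (sg_pos hp U x).ne') hs

/-- Hölder -/
theorem holder {p : ℝ} (hp : 1 < p) {U : ℝ → ℝ≥0} (hU : Measurable U) (h0 : ∀ᵐ x, U x ≠ 0)
    (s : Set ℝ) : (volume s) ^ p ≤ uu U s * (vv p U s) ^ (p - 1) := by
  have hp0 : 0 < p := by linarith
  have hp1 : 0 < p - 1 := by linarith
  set q : ℝ := p / (p - 1) with hq
  have hpq : p.HolderConjugate q := by
    rw [Real.holderConjugate_iff]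
    refine ⟨hp, ?_⟩
    rw [hq]
    field_simp
    ring
  have hm1 : AEMeasurable (fun x => (U x : ℝ≥0∞) ^ (1 / p)) (volume.restrict s) :=
    ((hU.coe_nnreal_ennreal).pow_const _).aemeasurable
  have hm2 : AEMeasurable (fun x => (sg p U x) ^ (1 / q)) (volume.restrict s) :=
    ((sg_meas hU).pow_const _).aemeasurable
  have key := ENNReal.lintegral_mul_le_Lp_mul_Lq (volume.restrict s) hpq hm1 hm2
  have e1 : ∫⁻ x in s, ((fun x => (U x : ℝ≥0∞) ^ (1 / p)) * fun x => (sg p U x) ^ (1 / q)) x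
      = volume s := by
    rw [← setLIntegral_one]
    refine lintegral_congr_ae ?_
    filter_upwards [ae_restrict_of_ae h0] with x hx
    simp only [Pi.mul_apply]
    have hx0 : (U x : ℝ≥0∞) ≠ 0 := by exact_mod_cast hx
    unfold sg
    rw [← ENNReal.rpow_mul, ← ENNReal.rpow_add _ _ hx0 ENNReal.coe_ne_top]
    have : 1 / p + -1 / (p - 1) * (1 / q) = 0 := by
      rw [hq]; field_simp; ring
    rw [this, ENNReal.rpow_zero]
  have e2 : ∫⁻ x in s, ((U x : ℝ≥0∞) ^ (1 / p)) ^ p = uu U s := by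
    refine lintegral_congr fun x => ?_
    rw [← ENNReal.rpow_mul, one_div_mul_cancel hp0.ne', ENNReal.rpow_one]
  have hq0 : 0 < q := div_pos hp0 hp1
  have e3 : ∫⁻ x in s, ((sg p U x) ^ (1 / q)) ^ q = vv p U s := by
    refine lintegral_congr fun x => ?_
    rw [← ENNReal.rpow_mul, one_div_mul_cancel hq0.ne', ENNReal.rpow_one]
  rw [e1, e2, e3] at key
  calc (volume s) ^ p ≤ ((uu U s) ^ (1 / p) * (vv p U s) ^ (1 / q)) ^ p :=
        ENNReal.rpow_le_rpow key hp0.le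
    _ = uu U s * (vv p U s) ^ (p - 1) := by
        rw [ENNReal.mul_rpow_of_nonneg _ _ hp0.le, ← ENNReal.rpow_mul, ← ENNReal.rpow_mul,
          one_div_mul_cancel hp0.ne', ENNReal.rpow_one]
        congr 2
        rw [hq]; field_simp

/-- real decay lemma -/
theorem decay {p C D : ℝ} (hp : 1 < p) (hC : 0 < C) (hD : 0 < D) :
    ∃ θ : ℝ, 0 < θ ∧ θ < 1 ∧ ∀ (r : ℝ), 0 < r → ∀ (u T : ℕ → ℝ) (K : ℕ), (∀ k, 0 < u k) →
      (∀ k, 0 < T k) → (∀ k ≤ K, u k * T k ^ (p - 1) ≤ C * (r / 2 ^ k) ^ p) →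
      (∀ k < K, T k ≤ T (k + 1)) →
      (∀ k < K, (r / 2 ^ k) ^ p ≤ D * u k * (T (k + 1) - T k) ^ (p - 1)) →
      (r ^ p ≤ D * u 0 * T 0 ^ (p - 1)) →
      ∀ k ≤ K, u k ≤ C * D * θ ^ k * (u 0 * r ^ (-p)) * (r / 2 ^ k) ^ p := by
  have hp1 : 0 < p - 1 := by linarith
  set c : ℝ := (1 / (D * C)) ^ (1 / (p - 1)) with hc
  have hc0 : 0 < c := by positivity
  have hcp : c ^ (p - 1) = 1 / (D * C) := by
    rw [hc, ← Real.rpow_mul (by positivity), one_div_mul_cancel hp1.ne', Real.rpow_one]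
  refine ⟨(1 + c) ^ (-(p - 1)), by positivity, ?_, ?_⟩
  · exact Real.rpow_lt_one_of_one_lt_of_neg (by linarith) (by linarith)
  intro r hr u T K hu hT h1 hmono h2 h3
  have hr' : ∀ k : ℕ, 0 < r / 2 ^ k := fun k => by positivity
  -- growth
  have hg : ∀ k < K, (1 + c) * T k ≤ T (k + 1) := by
    intro k hk
    have hd : 0 ≤ T (k + 1) - T k := by linarith [hmono k hk]
    have a1 := h2 k hk
    have a2 := h1 k hk.le
    have hTp : 0 < T k ^ (p - 1) := Real.rpow_pos_of_pos (hT k) _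
    have hrp : 0 < (r / 2 ^ k) ^ p := Real.rpow_pos_of_pos (hr' k) _
    have hdp : 0 ≤ (T (k + 1) - T k) ^ (p - 1) := Real.rpow_nonneg hd _
    have a3 : (r / 2 ^ k) ^ p * T k ^ (p - 1) ≤
        D * (T (k + 1) - T k) ^ (p - 1) * (C * (r / 2 ^ k) ^ p) := by
      calc (r / 2 ^ k) ^ p * T k ^ (p - 1) ≤ (D * u k * (T (k + 1) - T k) ^ (p - 1)) * T k ^ (p - 1) :=
            mul_le_mul_of_nonneg_right a1 hTp.le
        _ = D * (T (k + 1) - T k) ^ (p - 1) * (u k * T k ^ (p - 1)) := by ring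
        _ ≤ D * (T (k + 1) - T k) ^ (p - 1) * (C * (r / 2 ^ k) ^ p) :=
            mul_le_mul_of_nonneg_left a2 (by positivity)
    have a4 : T k ^ (p - 1) ≤ (D * C) * (T (k + 1) - T k) ^ (p - 1) := by
      have : (r / 2 ^ k) ^ p * T k ^ (p - 1) ≤
          (r / 2 ^ k) ^ p * ((D * C) * (T (k + 1) - T k) ^ (p - 1)) := by
        calc _ ≤ _ := a3
          _ = _ := by ring
      exact le_of_mul_le_mul_left this hrp
    have a5 : (c * T k) ^ (p - 1) ≤ (T (k + 1) - T k) ^ (p - 1) := by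
      rw [Real.mul_rpow hc0.le (hT k).le, hcp, one_div, inv_mul_le_iff₀ (by positivity)]
      exact a4
    have a6 : c * T k ≤ T (k + 1) - T k :=
      (Real.rpow_le_rpow_iff (by have := hT k; positivity) hd hp1).1 a5
    linarith
  have hg' : ∀ k ≤ K, (1 + c) ^ k * T 0 ≤ T k := by
    intro k
    induction k with
    | zero => intro _; simp
    | succ n ih =>
      intro hn
      have i1 := ih (by omega)
      have i2 := hg n (by omega)
      calc (1 + c) ^ (n + 1) * T 0 = (1 + c) * ((1 + c) ^ n * T 0) := by ring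
        _ ≤ (1 + c) * T n := mul_le_mul_of_nonneg_left i1 (by positivity)
        _ ≤ T (n + 1) := i2
  intro k hk
  have b1 := h1 k hk
  have b2 := hg' k hk
  have hT0 := hT 0
  have b3 : ((1 + c) ^ k * T 0) ^ (p - 1) ≤ T k ^ (p - 1) :=
    Real.rpow_le_rpow (by positivity) b2 hp1.le
  have b4 : ((1 + c) ^ k * T 0) ^ (p - 1) = ((1 + c) ^ (p - 1)) ^ k * T 0 ^ (p - 1) := by
    rw [Real.mul_rpow (by positivity) hT0.le]
    congr 1
    rw [← Real.rpow_natCast, ← Real.rpow_natCast, ← Real.rpow_mul (by positivity),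
      ← Real.rpow_mul (by positivity), mul_comm]
  set E : ℝ := (1 + c) ^ (p - 1) with hE
  have hE0 : 0 < E := by positivity
  have b5 : (1 + c) ^ (-(p - 1)) = E⁻¹ := by rw [hE, Real.rpow_neg (by positivity)]
  rw [b5]
  have hEk : 0 < E ^ k := by positivity
  have hT0p : 0 < T 0 ^ (p - 1) := Real.rpow_pos_of_pos hT0 _
  have hrk : 0 < (r / 2 ^ k) ^ p := Real.rpow_pos_of_pos (hr' k) _
  have hrp : 0 < r ^ p := Real.rpow_pos_of_pos hr _
  have b6 : u k * (E ^ k * T 0 ^ (p - 1)) ≤ C * (r / 2 ^ k) ^ p := by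
    rw [← b4]
    exact (mul_le_mul_of_nonneg_left b3 (hu k).le).trans b1
  -- u k * E^k * T0' ≤ C R ;  r^p ≤ D u0 T0'
  have b7 : u k * E ^ k * r ^ p ≤ C * D * u 0 * (r / 2 ^ k) ^ p := by
    calc u k * E ^ k * r ^ p ≤ u k * E ^ k * (D * u 0 * T 0 ^ (p - 1)) :=
          mul_le_mul_of_nonneg_left h3 (by have := hu k; positivity)
      _ = D * u 0 * (u k * (E ^ k * T 0 ^ (p - 1))) := by ring
      _ ≤ D * u 0 * (C * (r / 2 ^ k) ^ p) := mul_le_mul_of_nonneg_left b6 (by have := hu 0; positivity)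
      _ = _ := by ring
  have b8 : r ^ (-p) = (r ^ p)⁻¹ := Real.rpow_neg hr.le _
  rw [b8, inv_pow]
  have : C * D * (E ^ k)⁻¹ * (u 0 * (r ^ p)⁻¹) * (r / 2 ^ k) ^ p
      = (C * D * u 0 * (r / 2 ^ k) ^ p) / (E ^ k * r ^ p) := by
    field_simp
  rw [this, le_div_iff₀ (by positivity)]
  calc u k * (E ^ k * r ^ p) = u k * E ^ k * r ^ p := by ring
    _ ≤ _ := b7

end Pool.Agent.U481.HW
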