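import Pool.Agent.U481.HW.NecA

set_option autoImplicit false

open MeasureTheory Filter Topology Set
open scoped ENNReal NNReal

namespace Pool.Agent.U481.HW

/-- ball -/
def Bl (a s : ℝ) : Set ℝ := Ioo (a - s) (a + s)

/-- tail set -/
def Tl (a s : ℝ) : Set ℝ := {y : ℝ | s < |y - a|}

theorem Tl_meas (a s : ℝ) : MeasurableSet (Tl a s) := by
  apply measurableSet_lt measurable_const
  fun_prop

/-- what is known about an admissible weight -/
structure Nc (p : ℝ) (U : ℝ → ℝ≥0) (D C1 C2 : ℝ≥0∞) : Prop where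
  hp : 1 < p
  wt : IsWeight U
  pos : ∀ᵐ x, U x ≠ 0
  Dfin : D < ⊤
  D1 : 1 ≤ D
  dbl : ∀ a s : ℝ, 0 < s → uu U (Bl a (2 * s)) ≤ D * uu U (Bl a s)
  C1fin : C1 < ⊤
  one : ∀ a h : ℝ, 0 < h → uu U (Ioo a (a + h)) *
    (min (vv p U (Ioo a (a + h))) (vv p U (Tl a (8 * h)))) ^ (p - 1) ≤ C1 * ENNReal.ofReal h ^ p
  C2fin : C2 < ⊤
  two : ∀ a h : ℝ, 0 < h → ∃ c ∈ Icc a (a + h), uu U (Ioo a (a + h)) *
      (∫⁻ x in Ioo a (a + h), ENNReal.ofReal |x - c| ^ (p / (p - 1)) * sg p U x) ^ (p - 1)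
      ≤ C2 * ENNReal.ofReal h ^ (2 * p)

theorem Nc.mk' (h_dbl : S_dbl) (h_pos : S_pos) (h_one : S_one) (h_two : S_two)
    {p : ℝ} (hp : 1 < p) {U : ℝ → ℝ≥0} (hU : IsWeight U) (hA : Admissible p U) :
    ∃ D C1 C2 : ℝ≥0∞, Nc p U D C1 C2 := by
  obtain ⟨C, hC, hd⟩ := h_dbl p hp U hU hA
  obtain ⟨C1, hC1, h1⟩ := h_one p hp U hU hA
  obtain ⟨C2, hC2, h2⟩ := h_two p hp U hU hA
  refine ⟨C + (1 + C), C1, C2, hp, hU, h_pos p hp U hU hA, by finiteness, ?_, ?_, hC1, h1, hC2, h2⟩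
  · exact le_add_left (le_add_right le_rfl)
  intro a s hs
  have hsub : Bl a (2 * s) ⊆ Ioc (a - 2 * s) (a - s) ∪ (Bl a s ∪ Ico (a + s) (a + 2 * s)) := by
    intro y hy
    simp only [Bl, mem_Ioo, mem_union, mem_Ioc, mem_Ico] at hy ⊢
    by_cases h1 : y ≤ a - s
    · left; exact ⟨hy.1, h1⟩
    · right
      by_cases h2 : y < a + s
      · left; exact ⟨by linarith, h2⟩
      · right; exact ⟨by linarith, hy.2⟩
  have e1 : uu U (Ioc (a - 2 * s) (a - s)) = uu U (Ioo (a - 2 * s) (a - s)) := by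
    unfold uu; rw [Measure.restrict_congr_set Ioo_ae_eq_Ioc.symm]
  have e2 : uu U (Ico (a + s) (a + 2 * s)) = uu U (Ioo (a + s) (a + 2 * s)) := by
    unfold uu; rw [Measure.restrict_congr_set Ioo_ae_eq_Ico.symm]
  have b1 : uu U (Ioo (a - 2 * s) (a - s)) ≤ C * uu U (Bl a s) := by
    have := (hd (a - 2 * s) s hs).1
    rw [show a - 2 * s + s = a - s by ring, show a - 2 * s + 2 * s = a by ring] at this
    refine this.trans (mul_le_mul_right (uu_mono U ?_) C)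
    exact Ioo_subset_Ioo le_rfl (by linarith)
  have b2 : uu U (Ioo (a + s) (a + 2 * s)) ≤ C * uu U (Bl a s) := by
    have := (hd a s hs).2
    refine this.trans (mul_le_mul_right (uu_mono U ?_) C)
    exact Ioo_subset_Ioo (by linarith) le_rfl
  calc uu U (Bl a (2 * s)) ≤ uu U (Ioc (a - 2 * s) (a - s) ∪ (Bl a s ∪ Ico (a + s) (a + 2 * s))) :=
        uu_mono U hsub
    _ ≤ uu U (Ioc (a - 2 * s) (a - s)) + (uu U (Bl a s) + uu U (Ico (a + s) (a + 2 * s))) := by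
        unfold uu
        exact (lintegral_union_le _ _ _).trans (add_le_add le_rfl (lintegral_union_le _ _ _))
    _ ≤ C * uu U (Bl a s) + (uu U (Bl a s) + C * uu U (Bl a s)) := by
        rw [e1, e2]; gcongr
    _ = (C + (1 + C)) * uu U (Bl a s) := by ring

variable {p : ℝ} {U : ℝ → ℝ≥0} {D C1 C2 : ℝ≥0∞}

theorem uu_Bl_fin (h : Nc p U D C1 C2) (a s : ℝ) : uu U (Bl a s) < ⊤ := h.wt.fin _ _

theorem uu_Bl_pos (h : Nc p U D C1 C2) (a : ℝ) {s : ℝ} (hs : 0 < s) : 0 < uu U (Bl a s) := by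
  refine uu_pos h.wt.meas h.pos ?_
  unfold Bl
  rw [Real.volume_Ioo]
  simp only [ne_eq, ENNReal.ofReal_eq_zero, not_le]
  linarith

theorem dbl_pow (h : Nc p U D C1 C2) (a : ℝ) {s : ℝ} (hs : 0 < s) (n : ℕ) :
    uu U (Bl a (2 ^ n * s)) ≤ D ^ n * uu U (Bl a s) := by
  induction n with
  | zero => simp
  | succ n ih =>
    have := h.dbl a (2 ^ n * s) (by positivity)
    rw [← mul_assoc, show (2:ℝ) * 2 ^ n = 2 ^ (n + 1) by ring] at this
    calc _ ≤ _ := this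
      _ ≤ D * (D ^ n * uu U (Bl a s)) := mul_le_mul_right ih D
      _ = _ := by ring

theorem one_ball (h : Nc p U D C1 C2) (a : ℝ) {s : ℝ} (hs : 0 < s)
    (hm : vv p U (Tl a (17 * s)) ≤ vv p U (Bl a s)) :
    uu U (Bl a s) * (vv p U (Tl a (17 * s))) ^ (p - 1) ≤ C1 * ENNReal.ofReal (2 * s) ^ p := by
  have h1 := h.one (a - s) (2 * s) (by linarith)
  rw [show a - s + 2 * s = a + s by ring] at h1
  have hp1 : 0 ≤ p - 1 := by linarith [h.hp]
  refine le_trans ?_ h1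
  refine mul_le_mul_right (ENNReal.rpow_le_rpow (le_min hm ?_) hp1) _
  refine vv_mono p U ?_
  intro y hy
  simp only [Tl, mem_ofPred_eq] at hy ⊢
  have : |y - a| ≤ |y - (a - s)| + s := by
    have h2 : y - a = (y - (a - s)) - s := by ring
    rw [h2]
    refine (abs_sub _ _).trans ?_
    rw [abs_of_pos hs]
  linarith

theorem tail_fin (h : Nc p U D C1 C2) (a : ℝ) {s : ℝ} (hs : 0 < s)
    (hm : vv p U (Tl a (17 * s)) ≤ vv p U (Bl a s)) : vv p U (Tl a (17 * s)) < ⊤ := by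
  by_contra hcon
  have ht : vv p U (Tl a (17 * s)) = ⊤ := not_lt_top_iff.1 hcon
  have h1 := one_ball h a hs hm
  have hp1 : 0 < p - 1 := by linarith [h.hp]
  rw [ht, ENNReal.top_rpow_of_pos hp1, ENNReal.mul_top (uu_Bl_pos h a hs).ne'] at h1
  have h2 : C1 * ENNReal.ofReal (2 * s) ^ p < ⊤ :=
    ENNReal.mul_lt_top h.C1fin (ENNReal.rpow_lt_top_of_nonneg (by linarith [h.hp]) ENNReal.ofReal_ne_top)
  exact absurd (lt_of_le_of_lt h1 h2) (lt_irrefl _)

theorem tail_pos (h : Nc p U D C1 C2) (a s : ℝ) : 0 < vv p U (Tl a s) := by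
  refine vv_pos h.hp h.wt.meas ?_
  intro hz
  have h1 : Ioo (a + |s| + 1) (a + |s| + 2) ⊆ Tl a s := by
    intro y hy
    simp only [Tl, mem_ofPred_eq, mem_Ioo] at hy ⊢
    have h2 := le_abs_self (y - a)
    have h3 := le_abs_self s
    linarith [hy.1]
  have h2 := measure_mono_null h1 hz
  rw [Real.volume_Ioo] at h2
  simp only [ENNReal.ofReal_eq_zero] at h2
  linarith

theorem up (h : Nc p U D C1 C2) : ∃ A θ : ℝ, 0 < A ∧ 0 < θ ∧ θ < 1 ∧ ∀ a r : ℝ, 0 < r → ∀ K : ℕ,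
    (∀ k ≤ K, vv p U (Tl a (17 * (r / 2 ^ k))) ≤ vv p U (Bl a (r / 2 ^ k))) → ∀ k ≤ K,
      (uu U (Bl a (r / 2 ^ k))).toReal ≤
        A * θ ^ k * ((uu U (Bl a r)).toReal * r ^ (-p)) * (r / 2 ^ k) ^ p := by
  have hp := h.hp
  have hp0 : 0 < p := by linarith
  have hp1 : 0 < p - 1 := by linarith
  have hD : D ≠ ⊤ := h.Dfin.ne
  have hC1 : C1 ≠ ⊤ := h.C1fin.ne
  set Cr : ℝ := C1.toReal * 2 ^ p + 1 with hCr
  set Dr : ℝ := (D ^ 6).toReal with hDr
  have hD6 : (1 : ℝ≥0∞) ≤ D ^ 6 := one_le_pow₀ h.D1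
  have hD6f : D ^ 6 ≠ ⊤ := ENNReal.pow_ne_top hD
  have hDr1 : 1 ≤ Dr := by
    rw [hDr, ← ENNReal.toReal_one]
    exact ENNReal.toReal_mono hD6f hD6
  have hCr0 : 0 < Cr := by positivity
  obtain ⟨θ, hθ0, hθ1, hdec⟩ := decay hp hCr0 (show 0 < Dr by linarith)
  refine ⟨Cr * Dr, θ, by positivity, hθ0, hθ1, ?_⟩
  intro a r hr K hK
  set ρ : ℕ → ℝ := fun k => r / 2 ^ k with hρ
  have hρ0 : ∀ k, 0 < ρ k := fun k => by simp only [hρ]; positivity
  set u : ℕ → ℝ := fun k => (uu U (Bl a (ρ k))).toReal with hu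
  set TT : ℕ → ℝ≥0∞ := fun k => vv p U (Tl a (17 * ρ k)) with hTT
  set T : ℕ → ℝ := fun k => (TT (min k K)).toReal with hT
  have hTf : ∀ k ≤ K, TT k < ⊤ := fun k hk => tail_fin h a (hρ0 k) (hK k hk)
  have hTp : ∀ k, 0 < TT k := fun k => tail_pos h a _
  have hu0 : ∀ k, 0 < u k := fun k =>
    ENNReal.toReal_pos (uu_Bl_pos h a (hρ0 k)).ne' (uu_Bl_fin h a _).ne
  have hT0 : ∀ k, 0 < T k := fun k =>
    ENNReal.toReal_pos (hTp _).ne' (hTf _ (min_le_right _ _)).ne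
  -- Hölder on a right annulus
  have hol : ∀ (b c t : ℝ), 0 < t → a ≤ b → c ≤ a + 64 * t → t ≤ c - b → ∀ V : ℝ≥0∞,
      vv p U (Ioc b c) ≤ V → V ≠ ⊤ →
      t ^ p ≤ Dr * (uu U (Bl a t)).toReal * V.toReal ^ (p - 1) := by
    intro b c t ht hab hct htb V hV hVf
    have h1 := holder hp h.wt.meas h.pos (Ioc b c)
    have h2 : uu U (Ioc b c) ≤ D ^ 6 * uu U (Bl a t) := by
      have h3 := dbl_pow h a ht 6
      refine le_trans ?_ h3
      have h4 : uu U (Ioc b c) = uu U (Ioo b c) := by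
        unfold uu; rw [Measure.restrict_congr_set Ioo_ae_eq_Ioc.symm]
      rw [h4]
      refine uu_mono U ?_
      intro y hy
      simp only [Bl, mem_Ioo] at hy ⊢
      constructor <;> norm_num <;> linarith [hy.1, hy.2]
    have h5 : ENNReal.ofReal t ^ p ≤ D ^ 6 * uu U (Bl a t) * V ^ (p - 1) := by
      calc ENNReal.ofReal t ^ p ≤ (volume (Ioc b c)) ^ p := by
            refine ENNReal.rpow_le_rpow ?_ hp0.le
            rw [Real.volume_Ioc]
            exact ENNReal.ofReal_le_ofReal htb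
        _ ≤ uu U (Ioc b c) * (vv p U (Ioc b c)) ^ (p - 1) := h1
        _ ≤ D ^ 6 * uu U (Bl a t) * V ^ (p - 1) :=
            mul_le_mul' h2 (ENNReal.rpow_le_rpow hV hp1.le)
    have h6 := ENNReal.toReal_mono (by
      refine ENNReal.mul_ne_top (ENNReal.mul_ne_top hD6f (uu_Bl_fin h a t).ne) ?_
      exact ENNReal.rpow_ne_top_of_nonneg hp1.le hVf) h5
    rw [ENNReal.toReal_mul, ENNReal.toReal_mul, ← ENNReal.toReal_rpow, ← ENNReal.toReal_rpow,
      ENNReal.toReal_ofReal ht.le] at h6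
    exact h6
  have h1 : ∀ k ≤ K, u k * T k ^ (p - 1) ≤ Cr * (r / 2 ^ k) ^ p := by
    intro k hk
    have a1 := one_ball h a (hρ0 k) (hK k hk)
    have a2 := ENNReal.toReal_mono (ENNReal.mul_ne_top hC1
      (ENNReal.rpow_ne_top_of_nonneg hp0.le ENNReal.ofReal_ne_top)) a1
    rw [ENNReal.toReal_mul, ENNReal.toReal_mul, ← ENNReal.toReal_rpow, ← ENNReal.toReal_rpow,
      ENNReal.toReal_ofReal (by have := hρ0 k; positivity),
      Real.mul_rpow (by norm_num) (hρ0 k).le] at a2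
    have a3 : T k = (TT k).toReal := by simp only [hT, min_eq_left hk]
    rw [a3]
    have a4 : 0 < ρ k ^ p := Real.rpow_pos_of_pos (hρ0 k) _
    calc u k * (TT k).toReal ^ (p - 1) ≤ C1.toReal * (2 ^ p * ρ k ^ p) := a2
      _ ≤ Cr * ρ k ^ p := by rw [hCr]; nlinarith
  have hhalf : ∀ k, ρ (k + 1) = ρ k / 2 := by
    intro k; simp only [hρ, pow_succ]; field_simp
  have hmono' : ∀ k < K, TT k + vv p U (Ioc (a + 17 * ρ (k + 1)) (a + 17 * ρ k)) ≤ TT (k + 1) := by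
    intro k hk
    simp only [hTT]
    unfold vv
    rw [← lintegral_union measurableSet_Ioc]
    · refine lintegral_mono_set ?_
      intro y hy
      rcases hy with hy | hy
      · simp only [Tl, mem_ofPred_eq] at hy ⊢
        rw [hhalf k]; have := hρ0 k; linarith
      · simp only [Tl, mem_ofPred_eq, mem_Ioc] at hy ⊢
        have := le_abs_self (y - a)
        linarith [hy.1]
    · rw [Set.disjoint_left]
      intro y hy hy'
      simp only [Tl, mem_ofPred_eq, mem_Ioc] at hy hy'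
      have h3 : 0 ≤ y - a := by have := hρ0 (k + 1); linarith [hy'.1]
      rw [abs_of_nonneg h3] at hy
      linarith [hy'.2]
  have hTk : ∀ k < K, T k = (TT k).toReal ∧ T (k + 1) = (TT (k + 1)).toReal := by
    intro k hk
    constructor
    · simp only [hT, min_eq_left hk.le]
    · simp only [hT, min_eq_left (Nat.succ_le_of_lt hk)]
  have h2 : ∀ k < K, T k ≤ T (k + 1) := by
    intro k hk
    rw [(hTk k hk).1, (hTk k hk).2]
    exact ENNReal.toReal_mono (hTf (k + 1) hk).ne (le_self_add.trans (hmono' k hk))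
  have h3 : ∀ k < K, (r / 2 ^ k) ^ p ≤ Dr * u k * (T (k + 1) - T k) ^ (p - 1) := by
    intro k hk
    set V := vv p U (Ioc (a + 17 * ρ (k + 1)) (a + 17 * ρ k)) with hV
    have hρk := hρ0 k
    have hVf : V ≠ ⊤ := ne_top_of_le_ne_top (hTf (k + 1) hk).ne (le_add_self.trans (hmono' k hk))
    have b1 := hol (a + 17 * ρ (k + 1)) (a + 17 * ρ k) (ρ k) hρk
      (by have := hρ0 (k + 1); linarith) (by linarith) (by rw [hhalf k]; linarith) V le_rfl hVf
    refine b1.trans ?_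
    refine mul_le_mul_of_nonneg_left ?_ (by have := hu0 k; positivity)
    refine Real.rpow_le_rpow ENNReal.toReal_nonneg ?_ hp1.le
    rw [(hTk k hk).1, (hTk k hk).2, le_sub_iff_add_le, add_comm,
      ← ENNReal.toReal_add (hTf k hk.le).ne hVf]
    exact ENNReal.toReal_mono (hTf (k + 1) hk).ne (hmono' k hk)
  have hρ00 : ρ 0 = r := by simp [hρ]
  have h4 : r ^ p ≤ Dr * u 0 * T 0 ^ (p - 1) := by
    have e0 : T 0 = (TT 0).toReal := by simp [hT]
    rw [e0]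
    have b1 := hol (a + 17 * r) (a + 34 * r) r hr (by linarith) (by linarith) (by linarith) (TT 0) (by
      refine vv_mono p U ?_
      intro y hy
      simp only [Tl, mem_ofPred_eq, mem_Ioc, hρ00] at hy ⊢
      have := le_abs_self (y - a)
      linarith [hy.1]) (hTf 0 (Nat.zero_le _)).ne
    simp only [hu, hρ00]
    exact b1
  intro k hk
  have := hdec r hr u T K hu0 hT0 h1 h2 h3 h4 k hk
  simp only [hu, hρ00] at this
  exact this

end Pool.Agent.U481.HW
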