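import Pool.Agent.U481.HW.NecB

set_option autoImplicit false

open MeasureTheory Filter Topology Set
open scoped ENNReal NNReal

namespace Pool.Agent.U481.HW

variable {p : ℝ} {U : ℝ → ℝ≥0} {D C1 C2 : ℝ≥0∞}

/-- the divided weight -/
noncomputable def Wt (p : ℝ) (U : ℝ → ℝ≥0) (ψ : ℝ → ℝ) (x : ℝ) : ℝ≥0 :=
  U x / (Real.toNNReal (ψ x)) ^ p

theorem Wt_coe {ψ : ℝ → ℝ} {x : ℝ} (hp : 0 ≤ p) (hψ : 0 < ψ x) :
    (Wt p U ψ x : ℝ≥0∞) = (U x : ℝ≥0∞) / ENNReal.ofReal (ψ x) ^ p := by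
  unfold Wt
  rw [ENNReal.coe_div, ENNReal.coe_rpow_of_nonneg _ hp]
  · rfl
  · exact (NNReal.rpow_pos (Real.toNNReal_pos.2 hψ)).ne'

theorem Wt_le {ψ : ℝ → ℝ} {x t : ℝ} (hp : 0 ≤ p) (ht : 0 < t) (hψ : t ≤ ψ x) :
    (Wt p U ψ x : ℝ≥0∞) ≤ (U x : ℝ≥0∞) * ENNReal.ofReal (t ^ (-p)) := by
  rw [Wt_coe hp (ht.trans_le hψ), div_eq_mul_inv]
  refine mul_le_mul_right ?_ _
  rw [Real.rpow_neg ht.le, ENNReal.ofReal_inv_of_pos (Real.rpow_pos_of_pos ht p),
    ENNReal.ofReal_rpow_of_pos ht |>.symm]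
  exact ENNReal.inv_le_inv.2 (ENNReal.rpow_le_rpow (ENNReal.ofReal_le_ofReal hψ) hp)

theorem sgW {ψ : ℝ → ℝ} {x : ℝ} (hp : 1 < p) (hψ : 0 < ψ x) :
    sg p (Wt p U ψ) x = ENNReal.ofReal (ψ x) ^ (p / (p - 1)) * sg p U x := by
  have hp1 : 0 < p - 1 := by linarith
  have hneg : -1 / (p - 1) < 0 := div_neg_of_neg_of_pos (by norm_num) hp1
  unfold sg
  rw [Wt_coe (by linarith) hψ, div_eq_mul_inv]
  have h1 : (ENNReal.ofReal (ψ x) ^ p) ≠ 0 :=
    (ENNReal.rpow_pos (ENNReal.ofReal_pos.2 hψ) ENNReal.ofReal_ne_top).ne'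
  have h2 : (ENNReal.ofReal (ψ x) ^ p) ≠ ⊤ :=
    ENNReal.rpow_ne_top_of_nonneg (by linarith) ENNReal.ofReal_ne_top
  rw [ENNReal.mul_rpow_of_ne_top ENNReal.coe_ne_top (ENNReal.inv_ne_top.2 h1), ENNReal.inv_rpow,
    ← ENNReal.rpow_mul, ← ENNReal.rpow_neg, mul_comm]
  congr 2
  field_simp

/-- annulus -/
def ann (a r : ℝ) (k : ℕ) : Set ℝ := {y : ℝ | r / 2 ^ (k + 1) < |y - a| ∧ |y - a| ≤ r / 2 ^ k}

theorem ann_exists {a r y : ℝ} (hr : 0 < r) (h1 : 0 < |y - a|) (h2 : |y - a| < r) :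
    ∃ k : ℕ, y ∈ ann a r k := by
  obtain ⟨n, hn1, hn2⟩ := exists_nat_pow_near_of_lt_one (x := |y - a| / r) (y := (1 / 2 : ℝ))
    (by positivity) ((div_lt_one hr).2 h2).le (by norm_num) (by norm_num)
  refine ⟨n, ?_, ?_⟩
  · rw [lt_div_iff₀ hr] at hn1
    rw [one_div, inv_pow] at hn1
    rw [div_eq_mul_inv, mul_comm]
    exact hn1
  · rw [div_le_iff₀ hr] at hn2
    rw [one_div, inv_pow] at hn2
    rw [div_eq_mul_inv, mul_comm]
    exact hn2

/-- The weight on the good annuli. -/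
theorem ann_bound (h : Nc p U D C1 C2) : ∃ A : ℝ, 0 < A ∧ ∀ (a r : ℝ), 0 < r → ∀ (ψ : ℝ → ℝ),
    (∀ y, |y - a| ≤ ψ y) →
      (∫⁻ x in (⋃ k ∈ {k : ℕ | ∀ j ≤ k, vv p U (Tl a (17 * (r / 2 ^ j))) ≤ vv p U (Bl a (r / 2 ^ j))},
        ann a r k), (Wt p U ψ x : ℝ≥0∞)) ≤ ENNReal.ofReal (A * ((uu U (Bl a r)).toReal * r ^ (-p))) := by
  obtain ⟨A, θ, hA, hθ0, hθ1, hup⟩ := up h
  have hp := h.hp
  have hp0 : 0 < p := by linarith
  refine ⟨A * 2 ^ p * (1 - θ)⁻¹, by have : 0 < 1 - θ := by linarith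
                                    positivity, ?_⟩
  intro a r hr ψ hψ
  set S : Set ℕ := {k : ℕ | ∀ j ≤ k, vv p U (Tl a (17 * (r / 2 ^ j))) ≤ vv p U (Bl a (r / 2 ^ j))}
    with hS
  set c0 : ℝ := (uu U (Bl a r)).toReal * r ^ (-p) with hc0
  have hc00 : 0 ≤ c0 := by
    have := Real.rpow_pos_of_pos hr (-p)
    positivity
  have hterm : ∀ k : ℕ, (∫⁻ x in (⋃ (_ : k ∈ S), ann a r k), (Wt p U ψ x : ℝ≥0∞)) ≤
      ENNReal.ofReal (A * 2 ^ p * c0 * θ ^ k) := by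
    intro k
    by_cases hk : k ∈ S
    · simp only [hk, iUnion_true]
      have hrk : 0 < r / 2 ^ k := by positivity
      have hrk1 : 0 < r / 2 ^ (k + 1) := by positivity
      have hm0 : Measurable fun y : ℝ => |y - a| := by fun_prop
      have hmann : MeasurableSet (ann a r k) :=
        (measurableSet_lt measurable_const hm0).inter (measurableSet_le hm0 measurable_const)
      calc (∫⁻ x in ann a r k, (Wt p U ψ x : ℝ≥0∞))
          ≤ ∫⁻ x in ann a r k, (U x : ℝ≥0∞) * ENNReal.ofReal ((r / 2 ^ (k + 1)) ^ (-p)) := by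
            refine setLIntegral_mono' hmann fun x hx => ?_
            exact Wt_le hp0.le hrk1 (hx.1.le.trans (hψ x))
        _ = (∫⁻ x in ann a r k, (U x : ℝ≥0∞)) * ENNReal.ofReal ((r / 2 ^ (k + 1)) ^ (-p)) :=
            lintegral_mul_const _ h.wt.meas.coe_nnreal_ennreal
        _ ≤ uu U (Bl a (r / 2 ^ k)) * ENNReal.ofReal ((r / 2 ^ (k + 1)) ^ (-p)) := by
            refine mul_le_mul_left ?_ _
            have e : uu U (Bl a (r / 2 ^ k)) = uu U (Icc (a - r / 2 ^ k) (a + r / 2 ^ k)) := by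
              unfold uu Bl; rw [Measure.restrict_congr_set Ioo_ae_eq_Icc]
            rw [e]
            refine lintegral_mono_set ?_
            intro y hy
            have := abs_le.1 hy.2
            exact ⟨by linarith [this.1], by linarith [this.2]⟩
        _ = ENNReal.ofReal ((uu U (Bl a (r / 2 ^ k))).toReal * (r / 2 ^ (k + 1)) ^ (-p)) := by
            rw [ENNReal.ofReal_mul ENNReal.toReal_nonneg,
              ENNReal.ofReal_toReal (uu_Bl_fin h a _).ne]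
        _ ≤ ENNReal.ofReal (A * 2 ^ p * c0 * θ ^ k) := by
            refine ENNReal.ofReal_le_ofReal ?_
            have h1 := hup a r hr k hk k le_rfl
            have h2 : 0 < (r / 2 ^ (k + 1)) ^ (-p) := Real.rpow_pos_of_pos hrk1 _
            refine (mul_le_mul_of_nonneg_right h1 h2.le).trans (le_of_eq ?_)
            have h3 : r / 2 ^ (k + 1) = (r / 2 ^ k) * 2⁻¹ := by
              rw [pow_succ]; field_simp
            rw [h3, Real.mul_rpow hrk.le (by norm_num), Real.inv_rpow (by norm_num),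
              Real.rpow_neg hrk.le, Real.rpow_neg (by norm_num : (0:ℝ) ≤ 2), inv_inv]
            have h4 : 0 < (r / 2 ^ k) ^ p := Real.rpow_pos_of_pos hrk _
            field_simp
            exact hc0.symm
    · simp only [hk, iUnion_of_empty]
      simp
  calc _ ≤ ∑' k : ℕ, ∫⁻ x in (⋃ (_ : k ∈ S), ann a r k), (Wt p U ψ x : ℝ≥0∞) :=
        lintegral_iUnion_le _ _
    _ ≤ ∑' k : ℕ, ENNReal.ofReal (A * 2 ^ p * c0 * θ ^ k) := ENNReal.tsum_le_tsum hterm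
    _ = ENNReal.ofReal (A * 2 ^ p * (1 - θ)⁻¹ * c0) := by
        rw [← ENNReal.ofReal_tsum_of_nonneg]
        · rw [tsum_mul_left, tsum_geometric_of_lt_one hθ0.le hθ1]
          congr 1; ring
        · intro k; positivity
        · exact (summable_geometric_of_lt_one hθ0.le hθ1).mul_left _

end Pool.Agent.U481.HW
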