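import Pool.Agent.U481.HW.NecC

set_option autoImplicit false

open MeasureTheory Filter Topology Set
open scoped ENNReal NNReal

namespace Pool.Agent.U481.HW

variable {p : ℝ} {U : ℝ → ℝ≥0} {D C1 C2 : ℝ≥0∞}

theorem Wt_meas (hU : Measurable U) {ψ : ℝ → ℝ} (hψ : Measurable ψ) : Measurable (Wt p U ψ) := by
  unfold Wt
  exact hU.div ((hψ.real_toNNReal).pow_const _)

theorem star_gen (hp : 1 < p) {ψ : ℝ → ℝ} (hψ0 : ∀ᵐ x, 0 < ψ x) {A : ℝ} (hA : 0 ≤ A)
    {C3 : ℝ≥0∞} {a r : ℝ} (hr : 0 < r) (hfin : uu U (Bl a r) < ⊤)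
    (hup : uu (Wt p U ψ) (Bl a r) ≤ ENNReal.ofReal (A * ((uu U (Bl a r)).toReal * r ^ (-p))))
    (h3 : uu U (Bl a r) * (∫⁻ x in Bl a r, ENNReal.ofReal (ψ x) ^ (p / (p - 1)) * sg p U x) ^ (p - 1)
      ≤ C3 * ENNReal.ofReal r ^ (2 * p)) :
    uu (Wt p U ψ) (Bl a r) * (vv p (Wt p U ψ) (Bl a r)) ^ (p - 1) ≤
      ENNReal.ofReal A * C3 * ENNReal.ofReal r ^ p := by
  have e1 : vv p (Wt p U ψ) (Bl a r) =
      ∫⁻ x in Bl a r, ENNReal.ofReal (ψ x) ^ (p / (p - 1)) * sg p U x := by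
    unfold vv
    refine lintegral_congr_ae ?_
    filter_upwards [ae_restrict_of_ae hψ0] with x hx
    exact sgW hp hx
  rw [e1]
  set V := (∫⁻ x in Bl a r, ENNReal.ofReal (ψ x) ^ (p / (p - 1)) * sg p U x) ^ (p - 1) with hV
  have e2 : ENNReal.ofReal (A * ((uu U (Bl a r)).toReal * r ^ (-p))) =
      ENNReal.ofReal A * (uu U (Bl a r) * ENNReal.ofReal (r ^ (-p))) := by
    rw [ENNReal.ofReal_mul hA, ENNReal.ofReal_mul ENNReal.toReal_nonneg,
      ENNReal.ofReal_toReal hfin.ne]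
  have e3 : ENNReal.ofReal (r ^ (-p)) * ENNReal.ofReal r ^ (2 * p) = ENNReal.ofReal r ^ p := by
    rw [← ENNReal.ofReal_rpow_of_pos hr, ← ENNReal.rpow_add _ _ (ENNReal.ofReal_pos.2 hr).ne'
      ENNReal.ofReal_ne_top]
    congr 1; ring
  calc uu (Wt p U ψ) (Bl a r) * V ≤ (ENNReal.ofReal A * (uu U (Bl a r) * ENNReal.ofReal (r ^ (-p)))) * V := by
        rw [← e2]; exact mul_le_mul_left hup V
    _ = ENNReal.ofReal A * ENNReal.ofReal (r ^ (-p)) * (uu U (Bl a r) * V) := by ring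
    _ ≤ ENNReal.ofReal A * ENNReal.ofReal (r ^ (-p)) * (C3 * ENNReal.ofReal r ^ (2 * p)) :=
        mul_le_mul_right h3 _
    _ = ENNReal.ofReal A * C3 * (ENNReal.ofReal (r ^ (-p)) * ENNReal.ofReal r ^ (2 * p)) := by ring
    _ = _ := by rw [e3]

theorem ap_gen (hp : 1 < p) (hU : IsWeight U) {ψ : ℝ → ℝ} (hψ0 : ∀ᵐ x, 0 < ψ x)
    (hψL : ∀ x y, |ψ x - ψ y| ≤ |x - y|) {K1 K2 : ℝ≥0∞} (hK1 : K1 < ⊤) (hK2 : K2 < ⊤)
    (L1 : ∀ x h : ℝ, 0 < h → 16 * h < ψ x →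
      uu U (Ioo x (x + h)) * (vv p U (Ioo x (x + h))) ^ (p - 1) ≤ K1 * ENNReal.ofReal h ^ p)
    (L2 : ∀ x h : ℝ, 0 < h → ψ x ≤ 16 * h →
      uu (Wt p U ψ) (Ioo x (x + h)) * (vv p (Wt p U ψ) (Ioo x (x + h))) ^ (p - 1)
        ≤ K2 * ENNReal.ofReal h ^ p)
    (hfin : ∀ a b : ℝ, uu (Wt p U ψ) (Ioo a b) < ⊤) :
    Ap p (Wt p U ψ) ∧ ∀ᵐ x, (U x : ℝ) = ψ x ^ p * Wt p U ψ x := by
  have hp0 : 0 < p := by linarith
  have hp1 : 0 < p - 1 := by linarith
  have hψc : Continuous ψ := by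
    refine (LipschitzWith.of_dist_le_mul (K := 1) fun x y => ?_).continuous
    rw [Real.dist_eq, Real.dist_eq, NNReal.coe_one, one_mul]
    exact hψL x y
  have hrel : ∀ᵐ x, (U x : ℝ) = ψ x ^ p * Wt p U ψ x := by
    filter_upwards [hψ0] with x hx
    unfold Wt
    rw [NNReal.coe_div, NNReal.coe_rpow, Real.coe_toNNReal _ hx.le]
    have : ψ x ^ p ≠ 0 := (Real.rpow_pos_of_pos hx p).ne'
    field_simp
  refine ⟨⟨⟨Wt_meas hU.meas hψc.measurable, hfin, ?_⟩, ?_⟩, hrel⟩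
  · intro h0
    apply hU.ne
    filter_upwards [hrel, h0] with x h1 h2
    rw [h2] at h1
    have : (U x : ℝ) = 0 := by simpa using h1
    exact_mod_cast this
  refine ⟨ENNReal.ofReal ((17 / 15) ^ p) * K1 + K2, by finiteness, ?_⟩
  intro a b hab
  set h : ℝ := b - a with hh
  have hpos : 0 < h := by linarith
  have hb : b = a + h := by linarith
  rw [hb]
  change uu (Wt p U ψ) (Ioo a (a + h)) * (vv p (Wt p U ψ) (Ioo a (a + h))) ^ (p - 1) ≤ _
  by_cases hc : ψ a ≤ 16 * h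
  · refine (L2 a h hpos hc).trans ?_
    exact mul_le_mul_left le_add_self _
  · push Not at hc
    set d : ℝ := ψ a with hd
    have hd0 : 0 < d := by linarith
    have hy : ∀ y ∈ Ioo a (a + h), 15 / 16 * d ≤ ψ y ∧ ψ y ≤ 17 / 16 * d := by
      intro y hy
      have h1 := hψL y a
      have h2 : |y - a| ≤ h := by
        rw [abs_of_pos (by linarith [hy.1])]; linarith [hy.2]
      have h3 := abs_le.1 (h1.trans h2)
      constructor <;> linarith [h3.1, h3.2]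
    have b1 : uu (Wt p U ψ) (Ioo a (a + h)) ≤
        uu U (Ioo a (a + h)) * ENNReal.ofReal ((15 / 16 * d) ^ (-p)) := by
      unfold uu
      rw [← lintegral_mul_const _ hU.meas.coe_nnreal_ennreal]
      refine setLIntegral_mono' measurableSet_Ioo fun y hy' => ?_
      exact Wt_le hp0.le (by positivity) (hy y hy').1
    have b2 : vv p (Wt p U ψ) (Ioo a (a + h)) ≤
        ENNReal.ofReal (17 / 16 * d) ^ (p / (p - 1)) * vv p U (Ioo a (a + h)) := by
      unfold vv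
      rw [← lintegral_const_mul _ (sg_meas hU.meas)]
      refine setLIntegral_mono' measurableSet_Ioo fun y hy' => ?_
      have h1 := hy y hy'
      rw [sgW hp (by linarith [h1.1])]
      exact mul_le_mul_left (ENNReal.rpow_le_rpow (ENNReal.ofReal_le_ofReal h1.2) (by positivity)) _
    have b3 : (vv p (Wt p U ψ) (Ioo a (a + h))) ^ (p - 1) ≤
        ENNReal.ofReal ((17 / 16 * d) ^ p) * (vv p U (Ioo a (a + h))) ^ (p - 1) := by
      refine (ENNReal.rpow_le_rpow b2 hp1.le).trans (le_of_eq ?_)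
      rw [ENNReal.mul_rpow_of_nonneg _ _ hp1.le, ← ENNReal.rpow_mul]
      congr 1
      rw [div_mul_cancel₀ _ hp1.ne', ENNReal.ofReal_rpow_of_pos (by positivity)]
    calc uu (Wt p U ψ) (Ioo a (a + h)) * (vv p (Wt p U ψ) (Ioo a (a + h))) ^ (p - 1)
        ≤ (uu U (Ioo a (a + h)) * ENNReal.ofReal ((15 / 16 * d) ^ (-p))) *
          (ENNReal.ofReal ((17 / 16 * d) ^ p) * (vv p U (Ioo a (a + h))) ^ (p - 1)) :=
          mul_le_mul' b1 b3
      _ = (ENNReal.ofReal ((15 / 16 * d) ^ (-p)) * ENNReal.ofReal ((17 / 16 * d) ^ p)) *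
          (uu U (Ioo a (a + h)) * (vv p U (Ioo a (a + h))) ^ (p - 1)) := by ring
      _ ≤ ENNReal.ofReal ((17 / 15) ^ p) * (K1 * ENNReal.ofReal h ^ p) := by
          refine mul_le_mul' (le_of_eq ?_) (L1 a h hpos hc)
          rw [← ENNReal.ofReal_mul (by positivity)]
          congr 1
          rw [Real.rpow_neg (by positivity), ← Real.inv_rpow (by positivity),
            ← Real.mul_rpow (by positivity) (by positivity)]
          congr 1
          field_simp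
      _ = ENNReal.ofReal ((17 / 15) ^ p) * K1 * ENNReal.ofReal h ^ p := by ring
      _ ≤ _ := mul_le_mul_left le_self_add _

end Pool.Agent.U481.HW
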