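import Pool.Agent.U481.HW.NecD

set_option autoImplicit false

open MeasureTheory Filter Topology Set
open scoped ENNReal NNReal

namespace Pool.Agent.U481.HW

variable {p : ℝ} {U : ℝ → ℝ≥0} {D C1 C2 : ℝ≥0∞}

theorem ae_ne (a : ℝ) : ∀ᵐ x : ℝ, x ≠ a := by
  rw [ae_iff]
  simp

/-- Case B: the dual weight is not integrable near `a`. -/
theorem caseB (h : Nc p U D C1 C2) (a : ℝ) (hs : ∀ s : ℝ, 0 < s → vv p U (Bl a s) = ⊤) :
    ∃ W : ℝ → ℝ≥0, Ap p W ∧ ∀ᵐ x, (U x : ℝ) = |x - a| ^ p * W x := by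
  have hp := h.hp
  have hp0 : 0 < p := by linarith
  have hp1 : 0 < p - 1 := by linarith
  obtain ⟨A, hA, hann⟩ := ann_bound h
  set ψ : ℝ → ℝ := fun x => |x - a| with hψ
  have hψ0 : ∀ᵐ x, 0 < ψ x := by
    filter_upwards [ae_ne a] with x hx
    exact abs_pos.2 (sub_ne_zero.2 hx)
  have hψL : ∀ x y, |ψ x - ψ y| ≤ |x - y| := by
    intro x y
    have := abs_abs_sub_abs_le_abs_sub (x - a) (y - a)
    simpa [hψ] using this
  -- upper bound
  have hup : ∀ r : ℝ, 0 < r →
      uu (Wt p U ψ) (Bl a r) ≤ ENNReal.ofReal (A * ((uu U (Bl a r)).toReal * r ^ (-p))) := by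
    intro r hr
    refine le_trans ?_ (hann a r hr ψ fun y => le_rfl)
    unfold uu
    have hsub : Bl a r ⊆ {a} ∪ (⋃ k ∈ {k : ℕ | ∀ j ≤ k, vv p U (Tl a (17 * (r / 2 ^ j))) ≤
        vv p U (Bl a (r / 2 ^ j))}, ann a r k) := by
      intro y hy
      by_cases hya : y = a
      · left; exact hya
      · right
        have h1 : 0 < |y - a| := abs_pos.2 (sub_ne_zero.2 hya)
        have h2 : |y - a| < r := by
          rw [abs_lt]; exact ⟨by linarith [hy.1], by linarith [hy.2]⟩
        obtain ⟨k, hk⟩ := ann_exists hr h1 h2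
        refine mem_biUnion (x := k) ?_ hk
        intro j _
        rw [hs _ (by positivity)]
        exact le_top
    refine (lintegral_mono_set hsub).trans ((lintegral_union_le _ _ _).trans ?_)
    have h0 : ∫⁻ x in ({a} : Set ℝ), (Wt p U ψ x : ℝ≥0∞) = 0 := by
      rw [Measure.restrict_eq_zero.2 (by simp)]; simp
    rw [h0, zero_add]
  -- F3
  have h3 : ∀ r : ℝ, 0 < r → uu U (Bl a r) *
      (∫⁻ x in Bl a r, ENNReal.ofReal (ψ x) ^ (p / (p - 1)) * sg p U x) ^ (p - 1)
      ≤ (C2 * ENNReal.ofReal (2 ^ (2 * p))) * ENNReal.ofReal r ^ (2 * p) := by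
    intro r hr
    obtain ⟨c, hc, hc2⟩ := h.two (a - r) (2 * r) (by linarith)
    have hI : Ioo (a - r) (a - r + 2 * r) = Bl a r := by
      unfold Bl; congr 1; ring
    rw [hI] at hc2
    have e1 : C2 * ENNReal.ofReal (2 * r) ^ (2 * p) =
        (C2 * ENNReal.ofReal (2 ^ (2 * p))) * ENNReal.ofReal r ^ (2 * p) := by
      rw [ENNReal.ofReal_mul (by norm_num), ENNReal.mul_rpow_of_nonneg _ _ (by positivity),
        ENNReal.ofReal_rpow_of_pos (by norm_num)]
      ring
    rw [e1] at hc2
    by_cases hca : c = a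
    · rw [hca] at hc2; exact hc2
    · exfalso
      have hd : 0 < |a - c| := abs_pos.2 (sub_ne_zero.2 (Ne.symm hca))
      set e : ℝ := min (|a - c| / 2) r with he
      have he0 : 0 < e := lt_min (by linarith) hr
      have hsub : Bl a e ⊆ Bl a r := by
        intro y hy
        have := min_le_right (|a - c| / 2) r
        exact ⟨by linarith [hy.1], by linarith [hy.2]⟩
      have h4 : (⊤ : ℝ≥0∞) ≤ ∫⁻ x in Bl a r, ENNReal.ofReal |x - c| ^ (p / (p - 1)) * sg p U x := by
        calc (⊤ : ℝ≥0∞) = ENNReal.ofReal e ^ (p / (p - 1)) * vv p U (Bl a e) := by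
              rw [hs e he0, ENNReal.mul_top]
              exact (ENNReal.rpow_pos (ENNReal.ofReal_pos.2 he0) ENNReal.ofReal_ne_top).ne'
          _ = ∫⁻ x in Bl a e, ENNReal.ofReal e ^ (p / (p - 1)) * sg p U x := by
              unfold vv
              rw [lintegral_const_mul _ (sg_meas h.wt.meas)]
          _ ≤ ∫⁻ x in Bl a e, ENNReal.ofReal |x - c| ^ (p / (p - 1)) * sg p U x := by
              refine setLIntegral_mono' measurableSet_Ioo fun y hy => ?_
              refine mul_le_mul_left (ENNReal.rpow_le_rpow (ENNReal.ofReal_le_ofReal ?_)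
                (by positivity)) _
              have h5 : |y - a| < e := by
                rw [abs_lt]; exact ⟨by linarith [hy.1], by linarith [hy.2]⟩
              have h6 : |a - c| ≤ |y - c| + |y - a| := by
                have : a - c = (y - c) - (y - a) := by ring
                rw [this]; exact abs_sub _ _
              have h7 := min_le_left (|a - c| / 2) r
              linarith
          _ ≤ _ := lintegral_mono_set hsub
      have h5 := top_le_iff.1 h4
      rw [h5, ENNReal.top_rpow_of_pos hp1, ENNReal.mul_top (uu_Bl_pos h a hr).ne'] at hc2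
      have h6 : (C2 * ENNReal.ofReal (2 ^ (2 * p))) * ENNReal.ofReal r ^ (2 * p) < ⊤ :=
        ENNReal.mul_lt_top (ENNReal.mul_lt_top h.C2fin ENNReal.ofReal_lt_top)
          (ENNReal.rpow_lt_top_of_nonneg (by positivity) ENNReal.ofReal_ne_top)
      exact absurd (lt_of_le_of_lt hc2 h6) (lt_irrefl _)
  have hstar : ∀ r : ℝ, 0 < r → uu (Wt p U ψ) (Bl a r) * (vv p (Wt p U ψ) (Bl a r)) ^ (p - 1) ≤
      ENNReal.ofReal A * (C2 * ENNReal.ofReal (2 ^ (2 * p))) * ENNReal.ofReal r ^ p := fun r hr =>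
    star_gen hp hψ0 hA.le hr (uu_Bl_fin h a r) (hup r hr) (h3 r hr)
  set K2 : ℝ≥0∞ := ENNReal.ofReal A * (C2 * ENNReal.ofReal (2 ^ (2 * p))) * ENNReal.ofReal (20 ^ p)
    with hK2
  have hK2f : K2 < ⊤ := by
    refine ENNReal.mul_lt_top (ENNReal.mul_lt_top ENNReal.ofReal_lt_top
      (ENNReal.mul_lt_top h.C2fin ENNReal.ofReal_lt_top)) ENNReal.ofReal_lt_top
  refine ⟨Wt p U ψ, ap_gen hp h.wt hψ0 hψL h.C1fin hK2f ?_ ?_ ?_⟩
  · intro x t ht hx
    have h1 := h.one x t ht
    have h2 : vv p U (Tl x (8 * t)) = ⊤ := by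
      refine top_le_iff.1 ?_
      rw [← hs (8 * t) (by linarith)]
      refine vv_mono p U ?_
      intro y hy
      simp only [Tl, mem_ofPred_eq]
      have h5 : |y - a| < 8 * t := by
        rw [abs_lt]; exact ⟨by linarith [hy.1], by linarith [hy.2]⟩
      have h6 : |x - a| ≤ |y - x| + |y - a| := by
        have : x - a = -((y - x) - (y - a)) := by ring
        rw [this, abs_neg]; exact abs_sub _ _
      simp only [hψ] at hx
      linarith
    rw [h2, min_eq_left le_top] at h1
    exact h1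
  · intro x t ht hx
    have hsub : Ioo x (x + t) ⊆ Bl a (20 * t) := by
      intro y hy
      simp only [hψ] at hx
      have := abs_le.1 hx
      exact ⟨by linarith [hy.1, this.1], by linarith [hy.2, this.2]⟩
    have h1 := hstar (20 * t) (by linarith)
    calc _ ≤ uu (Wt p U ψ) (Bl a (20 * t)) * (vv p (Wt p U ψ) (Bl a (20 * t))) ^ (p - 1) :=
          mul_le_mul' (uu_mono _ hsub) (ENNReal.rpow_le_rpow (vv_mono p _ hsub) hp1.le)
      _ ≤ _ := h1
      _ = _ := by
          rw [hK2, ENNReal.ofReal_mul (by norm_num), ENNReal.mul_rpow_of_nonneg _ _ hp0.le,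
            ENNReal.ofReal_rpow_of_pos (by norm_num : (0:ℝ) < 20)]
          ring
  · intro b c
    set r : ℝ := |b - a| + |c - a| + 1 with hr
    have hr0 : 0 < r := by positivity
    have hsub : Ioo b c ⊆ Bl a r := by
      intro y hy
      have h1 := neg_abs_le (b - a)
      have h2 := le_abs_self (c - a)
      have h3 := abs_nonneg (b - a)
      have h4 := abs_nonneg (c - a)
      exact ⟨by linarith [hy.1], by linarith [hy.2]⟩
    exact lt_of_le_of_lt ((uu_mono _ hsub).trans (hup r hr0)) ENNReal.ofReal_lt_top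

end Pool.Agent.U481.HW
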