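import Pool.Agent.U481.HW.NecE

set_option autoImplicit false

open MeasureTheory Filter Topology Set
open scoped ENNReal NNReal

namespace Pool.Agent.U481.HW

variable {p : ℝ} {U : ℝ → ℝ≥0} {D C1 C2 : ℝ≥0∞}

theorem exists_R (hp : 1 < p) (hU : Measurable U) (hm : vv p U univ < ⊤) :
    ∃ R : ℝ, 1 ≤ R ∧ vv p U (Bl 0 R)ᶜ ≤ vv p U (Bl 0 R) ∧ 0 < vv p U (Bl 0 R) := by
  set μ : Measure ℝ := volume.withDensity (sg p U) with hμ
  have hμs : ∀ s, MeasurableSet s → μ s = vv p U s := fun s hs => withDensity_apply _ hs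
  have : IsFiniteMeasure μ := ⟨by rw [hμs _ MeasurableSet.univ]; exact hm⟩
  have hB : ∀ s, MeasurableSet (Bl 0 s) := fun s => measurableSet_Ioo
  have hpos : ∀ s : ℝ, 0 < s → 0 < vv p U (Bl 0 s) := by
    intro s hs
    refine vv_pos hp hU ?_
    unfold Bl
    rw [Real.volume_Ioo]
    simp only [ne_eq, ENNReal.ofReal_eq_zero, not_le]
    linarith
  have hanti : Antitone fun n : ℕ => (Bl 0 ((n : ℝ) + 1))ᶜ := by
    intro m n hmn
    refine compl_subset_compl.2 ?_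
    have : (m : ℝ) ≤ n := by exact_mod_cast hmn
    exact Ioo_subset_Ioo (by linarith) (by linarith)
  have hlim := tendsto_measure_iInter_atTop (μ := μ) (s := fun n : ℕ => (Bl 0 ((n : ℝ) + 1))ᶜ)
    (fun n => (hB _).compl.nullMeasurableSet) hanti ⟨0, measure_ne_top _ _⟩
  have hempty : (⋂ n : ℕ, (Bl 0 ((n : ℝ) + 1))ᶜ) = ∅ := by
    rw [← compl_iUnion, compl_empty_iff, eq_univ_iff_forall]
    intro x
    obtain ⟨n, hn⟩ := exists_nat_gt |x|
    refine mem_iUnion.2 ⟨n, ?_⟩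
    have := abs_lt.1 hn
    exact ⟨by linarith [this.1], by linarith [this.2]⟩
  rw [hempty, measure_empty] at hlim
  have h1 : ∀ᶠ n : ℕ in atTop, μ (Bl 0 ((n : ℝ) + 1))ᶜ < vv p U (Bl 0 1) :=
    hlim.eventually (gt_mem_nhds (hpos 1 one_pos))
  obtain ⟨n, hn⟩ := h1.exists
  refine ⟨(n : ℝ) + 1, by linarith [(Nat.cast_nonneg n : (0:ℝ) ≤ n)], ?_, hpos _ (by positivity)⟩
  rw [← hμs _ (hB _).compl]
  refine hn.le.trans (vv_mono p U ?_)
  have : (0 : ℝ) ≤ n := Nat.cast_nonneg n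
  exact Ioo_subset_Ioo (by linarith) (by linarith)

theorem exists_δ (hm : vv p U univ < ⊤) {V : ℝ≥0∞} (hV : 0 < V) :
    ∃ δ : ℝ, 0 < δ ∧ ∀ x t : ℝ, t ≤ δ → 2 * vv p U (Icc (x - 8 * t) (x + 8 * t)) ≤ V := by
  by_cases hVt : V = ⊤
  · exact ⟨1, one_pos, fun x t _ => by rw [hVt]; exact le_top⟩
  have hne : ∫⁻ x, sg p U x ≠ ⊤ := by
    have : vv p U univ = ∫⁻ x, sg p U x := by unfold vv; rw [Measure.restrict_univ]
    rw [← this]; exact hm.ne
  obtain ⟨d, hd, hd'⟩ := exists_pos_setLIntegral_lt_of_measure_lt hne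
    (show V / 2 ≠ 0 from (ENNReal.half_pos hV.ne').ne')
  set d' : ℝ := (min d 1).toReal with hd1
  have hmin : min d 1 ≠ ⊤ := ne_top_of_le_ne_top ENNReal.one_ne_top (min_le_right _ _)
  have hd'0 : 0 < d' := ENNReal.toReal_pos (lt_min hd one_pos).ne' hmin
  refine ⟨d' / 17, by positivity, fun x t ht => ?_⟩
  have h1 : volume (Icc (x - 8 * t) (x + 8 * t)) < d := by
    rw [Real.volume_Icc]
    refine lt_of_lt_of_le ?_ (min_le_left d 1)
    rw [← ENNReal.ofReal_toReal hmin, ← hd1]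
    exact (ENNReal.ofReal_lt_ofReal_iff hd'0).2 (by linarith)
  have h2 := hd' _ h1
  have h3 : vv p U (Icc (x - 8 * t) (x + 8 * t)) ≤ V / 2 := h2.le
  calc 2 * vv p U (Icc (x - 8 * t) (x + 8 * t)) ≤ 2 * (V / 2) := mul_le_mul_right h3 _
    _ = V := ENNReal.mul_div_cancel (by norm_num) (by norm_num)

end Pool.Agent.U481.HW
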