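import Pool.Agent.U481.HW.NecF

set_option autoImplicit false

open MeasureTheory Filter Topology Set
open scoped ENNReal NNReal

namespace Pool.Agent.U481.HW

variable {p : ℝ} {U : ℝ → ℝ≥0} {D C1 C2 : ℝ≥0∞}

/-- lower bound of the dipole integral, uniformly in the centre -/
theorem dip (hp : 1 < p) (hU : Measurable U) {R : ℝ} (hR1 : 1 ≤ R) (hRf : vv p U (Bl 0 R) < ⊤)
    (hRp : 0 < vv p U (Bl 0 R)) {δ : ℝ} (hδ : 0 < δ)
    (hδ2 : ∀ x t : ℝ, t ≤ δ → 2 * vv p U (Icc (x - 8 * t) (x + 8 * t)) ≤ vv p U (Bl 0 R)) :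
    ∃ K : ℝ≥0∞, K < ⊤ ∧ ∀ c : ℝ, ENNReal.ofReal (1 + |c|) ^ (p / (p - 1)) ≤
      K * ∫⁻ x in Bl 0 R, ENNReal.ofReal |x - c| ^ (p / (p - 1)) * sg p U x := by
  have hp1 : 0 < p - 1 := by linarith
  set q : ℝ := p / (p - 1) with hq
  have hq0 : 0 < q := div_pos (by linarith) hp1
  set V : ℝ≥0∞ := vv p U (Bl 0 R) with hV
  have hVinv : V⁻¹ < ⊤ := ENNReal.inv_lt_top.2 hRp
  have hVV : V⁻¹ * V = 1 := ENNReal.inv_mul_cancel hRp.ne' hRf.ne
  -- general tool
  have tool : ∀ (c e : ℝ) (s : Set ℝ), 0 ≤ e → MeasurableSet s → s ⊆ Bl 0 R → (∀ x ∈ s, e ≤ |x - c|) →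
      ENNReal.ofReal e ^ q * vv p U s ≤ ∫⁻ x in Bl 0 R, ENNReal.ofReal |x - c| ^ q * sg p U x := by
    intro c e s he hs hsub hx
    unfold vv
    rw [← lintegral_const_mul _ (sg_meas hU)]
    refine (setLIntegral_mono' hs fun x hxs => ?_).trans (lintegral_mono_set hsub)
    exact mul_le_mul_left (ENNReal.rpow_le_rpow (ENNReal.ofReal_le_ofReal (hx x hxs)) hq0.le) _
  refine ⟨ENNReal.ofReal (4 ^ q) * V⁻¹ + ENNReal.ofReal (((2 * R + 3) / δ) ^ q) * (2 * V⁻¹),
    by finiteness, fun c => ?_⟩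
  set J := ∫⁻ x in Bl 0 R, ENNReal.ofReal |x - c| ^ q * sg p U x with hJ
  by_cases hc : 2 * R + 2 ≤ |c|
  · have h1 := tool c ((1 + |c|) / 4) (Bl 0 R) (by positivity) measurableSet_Ioo Subset.rfl (by
      intro x hx
      have h2 : |x| ≤ R := abs_le.2 ⟨by linarith [hx.1], by linarith [hx.2]⟩
      have h3 : |c| ≤ |x - c| + |x| := by
        have : c = x - (x - c) := by ring
        calc |c| = |x - (x - c)| := by rw [← this]
          _ ≤ |x| + |x - c| := abs_sub _ _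
          _ = _ := by ring
      linarith)
    calc ENNReal.ofReal (1 + |c|) ^ q
        = ENNReal.ofReal (4 ^ q) * V⁻¹ * (ENNReal.ofReal ((1 + |c|) / 4) ^ q * V) := by
          have e1 : ENNReal.ofReal (1 + |c|) = ENNReal.ofReal 4 * ENNReal.ofReal ((1 + |c|) / 4) := by
            rw [← ENNReal.ofReal_mul (by norm_num)]; congr 1; ring
          rw [e1, ENNReal.mul_rpow_of_nonneg _ _ hq0.le, ENNReal.ofReal_rpow_of_pos (by norm_num)]
          calc ENNReal.ofReal (4 ^ q) * ENNReal.ofReal ((1 + |c|) / 4) ^ q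
              = ENNReal.ofReal (4 ^ q) * ENNReal.ofReal ((1 + |c|) / 4) ^ q * (V⁻¹ * V) := by
                rw [hVV, mul_one]
            _ = _ := by ring
      _ ≤ ENNReal.ofReal (4 ^ q) * V⁻¹ * J := mul_le_mul_right h1 _
      _ ≤ _ := mul_le_mul_left le_self_add _
  · push Not at hc
    set s : Set ℝ := Bl 0 R \ Icc (c - 8 * (δ / 8)) (c + 8 * (δ / 8)) with hs
    have h1 := tool c δ s hδ.le (measurableSet_Ioo.diff measurableSet_Icc) sdiff_subset (by
      intro x hx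
      by_contra hcon
      push Not at hcon
      have := abs_lt.1 hcon
      exact hx.2 ⟨by linarith [this.1], by linarith [this.2]⟩)
    have h2 : V ≤ 2 * vv p U s := by
      have h3 := hδ2 c (δ / 8) (by linarith)
      have h4 : V ≤ vv p U s + vv p U (Icc (c - 8 * (δ / 8)) (c + 8 * (δ / 8))) := by
        unfold vv at hV ⊢
        rw [hV]
        refine (lintegral_mono_set ?_).trans (lintegral_union_le _ _ _)
        intro x hx
        by_cases h : x ∈ Icc (c - 8 * (δ / 8)) (c + 8 * (δ / 8))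
        · right; exact h
        · left; exact ⟨hx, h⟩
      have h5 : V + V ≤ 2 * vv p U s + V := by
        calc V + V = 2 * V := by ring
          _ ≤ 2 * (vv p U s + vv p U (Icc (c - 8 * (δ / 8)) (c + 8 * (δ / 8)))) :=
              mul_le_mul_right h4 _
          _ = 2 * vv p U s + 2 * vv p U (Icc (c - 8 * (δ / 8)) (c + 8 * (δ / 8))) := by ring
          _ ≤ 2 * vv p U s + V := add_le_add le_rfl h3
      exact (ENNReal.add_le_add_iff_right hRf.ne).1 h5
    calc ENNReal.ofReal (1 + |c|) ^ q ≤ ENNReal.ofReal (2 * R + 3) ^ q :=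
          ENNReal.rpow_le_rpow (ENNReal.ofReal_le_ofReal (by linarith)) hq0.le
      _ = ENNReal.ofReal (((2 * R + 3) / δ) ^ q) * (ENNReal.ofReal δ ^ q * (V⁻¹ * V)) := by
          rw [hVV, mul_one, ← ENNReal.ofReal_rpow_of_pos (by positivity),
            ← ENNReal.mul_rpow_of_nonneg _ _ hq0.le, ← ENNReal.ofReal_mul (by positivity)]
          congr 2
          field_simp
      _ ≤ ENNReal.ofReal (((2 * R + 3) / δ) ^ q) * (ENNReal.ofReal δ ^ q * (V⁻¹ * (2 * vv p U s))) := by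
          gcongr
      _ = ENNReal.ofReal (((2 * R + 3) / δ) ^ q) * (2 * V⁻¹) * (ENNReal.ofReal δ ^ q * vv p U s) := by
          ring
      _ ≤ ENNReal.ofReal (((2 * R + 3) / δ) ^ q) * (2 * V⁻¹) * J := mul_le_mul_right h1 _
      _ ≤ _ := mul_le_mul_left le_add_self _

end Pool.Agent.U481.HW
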