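import Pool.Agent.U481.HW.NecG

set_option autoImplicit false

open MeasureTheory Filter Topology Set
open scoped ENNReal NNReal

namespace Pool.Agent.U481.HW

variable {p : ℝ} {U : ℝ → ℝ≥0} {D C1 C2 : ℝ≥0∞}

/-- Case C: the dual weight is integrable. -/
theorem caseC (h : Nc p U D C1 C2) (hm : vv p U univ < ⊤) :
    ∃ W : ℝ → ℝ≥0, Ap p W ∧ ∀ᵐ x, (U x : ℝ) = (1 + |x|) ^ p * W x := by
  have hp := h.hp
  have hp0 : 0 < p := by linarith
  have hp1 : 0 < p - 1 := by linarith
  set q : ℝ := p / (p - 1) with hq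
  have hq0 : 0 < q := div_pos hp0 hp1
  have hq1 : 1 ≤ q := by rw [hq, le_div_iff₀ hp1]; linarith
  obtain ⟨R, hR1, hRc, hRp⟩ := exists_R hp h.wt.meas hm
  have hR0 : 0 < R := by linarith
  set V : ℝ≥0∞ := vv p U (Bl 0 R) with hV
  set m : ℝ≥0∞ := vv p U univ with hm'
  have hvm : ∀ s, vv p U s ≤ m := fun s => vv_mono p U (subset_univ s)
  have hVf : V < ⊤ := (hvm _).trans_lt hm
  obtain ⟨δ, hδ, hδ2⟩ := exists_δ hm hRp
  obtain ⟨K3, hK3, hdip⟩ := dip hp h.wt.meas hR1 hVf hRp hδ hδ2
  obtain ⟨A, hA, hann⟩ := ann_bound h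
  set ψ : ℝ → ℝ := fun x => 1 + |x| with hψ
  have hψ0' : ∀ x, 0 < ψ x := fun x => by simp only [hψ]; positivity
  have hψ0 : ∀ᵐ x, 0 < ψ x := Eventually.of_forall hψ0'
  have hψL : ∀ x y, |ψ x - ψ y| ≤ |x - y| := by
    intro x y
    have := abs_abs_sub_abs_le_abs_sub x y
    simpa [hψ] using this
  -- the constant part
  set M0 : ℝ := (uu U (Bl 0 R)).toReal with hM0
  have hM00 : 0 ≤ M0 := ENNReal.toReal_nonneg
  set M : ℝ := M0 * m.toReal ^ (p - 1) with hM
  have hMn : 0 ≤ M := by positivity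
  have hlow : ∀ r : ℝ, 0 < r → 1 ≤ m.toReal ^ (p - 1) * ((uu U (Bl 0 r)).toReal * r ^ (-p)) := by
    intro r hr
    have h1 := holder hp h.wt.meas h.pos (Bl 0 r)
    have h2 : ENNReal.ofReal r ^ p ≤ uu U (Bl 0 r) * m ^ (p - 1) := by
      calc ENNReal.ofReal r ^ p ≤ (volume (Bl 0 r)) ^ p := by
            refine ENNReal.rpow_le_rpow ?_ hp0.le
            unfold Bl
            rw [Real.volume_Ioo]
            exact ENNReal.ofReal_le_ofReal (by linarith)
        _ ≤ _ := h1
        _ ≤ _ := mul_le_mul_right (ENNReal.rpow_le_rpow (hvm _) hp1.le) _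
    have h3 := ENNReal.toReal_mono (ENNReal.mul_ne_top (uu_Bl_fin h 0 r).ne
      (ENNReal.rpow_ne_top_of_nonneg hp1.le hm.ne)) h2
    rw [ENNReal.toReal_mul, ← ENNReal.toReal_rpow, ← ENNReal.toReal_rpow,
      ENNReal.toReal_ofReal hr.le] at h3
    have h4 : 0 < r ^ p := Real.rpow_pos_of_pos hr _
    rw [Real.rpow_neg hr.le]
    calc (1 : ℝ) = r ^ p * (r ^ p)⁻¹ := (mul_inv_cancel₀ h4.ne').symm
      _ ≤ ((uu U (Bl 0 r)).toReal * m.toReal ^ (p - 1)) * (r ^ p)⁻¹ :=
          mul_le_mul_of_nonneg_right h3 (by positivity)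
      _ = _ := by ring
  have hup : ∀ r : ℝ, R ≤ r →
      uu (Wt p U ψ) (Bl 0 r) ≤ ENNReal.ofReal ((A + M) * ((uu U (Bl 0 r)).toReal * r ^ (-p))) := by
    intro r hRr
    have hr : 0 < r := by linarith
    have hsub : Bl 0 r ⊆ Bl 0 R ∪ (⋃ k ∈ {k : ℕ | ∀ j ≤ k, vv p U (Tl 0 (17 * (r / 2 ^ j))) ≤
        vv p U (Bl 0 (r / 2 ^ j))}, ann 0 r k) := by
      intro y hy
      by_cases hyR : |y - 0| < R
      · left
        have := abs_lt.1 hyR
        exact ⟨by linarith [this.1], by linarith [this.2]⟩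
      · right
        push Not at hyR
        have h2 : |y - 0| < r := by
          rw [abs_lt]; exact ⟨by linarith [hy.1], by linarith [hy.2]⟩
        obtain ⟨k, hk⟩ := ann_exists hr (hR0.trans_le hyR) h2
        refine mem_biUnion (x := k) ?_ hk
        intro j hj
        have h5 : R ≤ r / 2 ^ j := by
          have h6 : r / 2 ^ k ≤ r / 2 ^ j := by
            apply div_le_div_of_nonneg_left hr.le (by positivity)
            exact pow_le_pow_right₀ (by norm_num) hj
          exact hyR.trans (hk.2.trans h6)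
        calc vv p U (Tl 0 (17 * (r / 2 ^ j))) ≤ vv p U (Bl 0 R)ᶜ := by
              refine vv_mono p U ?_
              intro z hz hz'
              simp only [Tl, mem_ofPred_eq] at hz
              have h7 : |z - 0| < R := by
                rw [abs_lt]; exact ⟨by linarith [hz'.1], by linarith [hz'.2]⟩
              linarith
          _ ≤ vv p U (Bl 0 R) := hRc
          _ ≤ vv p U (Bl 0 (r / 2 ^ j)) := vv_mono p U (Ioo_subset_Ioo (by linarith) (by linarith))
    have h1 := hann 0 r hr ψ (fun y => by simp only [hψ, sub_zero]; linarith)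
    have h2 : uu (Wt p U ψ) (Bl 0 R) ≤ ENNReal.ofReal (M * ((uu U (Bl 0 r)).toReal * r ^ (-p))) := by
      calc uu (Wt p U ψ) (Bl 0 R) ≤ uu U (Bl 0 R) := by
            unfold uu
            refine lintegral_mono fun x => ?_
            have h3 := Wt_le (U := U) (ψ := ψ) (x := x) hp0.le one_pos
              (by simp only [hψ]; linarith [abs_nonneg x])
            rw [Real.one_rpow, ENNReal.ofReal_one, mul_one] at h3
            exact h3
        _ = ENNReal.ofReal M0 := (ENNReal.ofReal_toReal (uu_Bl_fin h 0 R).ne).symm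
        _ ≤ _ := by
            refine ENNReal.ofReal_le_ofReal ?_
            have := hlow r hr
            calc M0 = M0 * 1 := (mul_one _).symm
              _ ≤ M0 * (m.toReal ^ (p - 1) * ((uu U (Bl 0 r)).toReal * r ^ (-p))) :=
                  mul_le_mul_of_nonneg_left this hM00
              _ = _ := by rw [hM]; ring
    have hc : 0 ≤ (uu U (Bl 0 r)).toReal * r ^ (-p) := by
      have := Real.rpow_pos_of_pos hr (-p)
      positivity
    calc uu (Wt p U ψ) (Bl 0 r) ≤ _ := lintegral_mono_set hsub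
      _ ≤ uu (Wt p U ψ) (Bl 0 R) + _ := lintegral_union_le _ _ _
      _ ≤ ENNReal.ofReal (M * ((uu U (Bl 0 r)).toReal * r ^ (-p))) +
          ENNReal.ofReal (A * ((uu U (Bl 0 r)).toReal * r ^ (-p))) := add_le_add h2 h1
      _ = _ := by
          rw [← ENNReal.ofReal_add (by positivity) (by positivity)]
          congr 1; ring
  -- F3
  set K4 : ℝ≥0∞ := 2 ^ (q - 1) * (1 + K3 * m) with hK4
  have hK4f : K4 < ⊤ := by
    rw [hK4]
    refine ENNReal.mul_lt_top (ENNReal.rpow_lt_top_of_nonneg (by linarith) (by norm_num)) ?_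
    exact ENNReal.add_lt_top.2 ⟨ENNReal.one_lt_top, ENNReal.mul_lt_top hK3 hm⟩
  set C3 : ℝ≥0∞ := K4 ^ (p - 1) * (C2 * ENNReal.ofReal (2 ^ (2 * p))) with hC3
  have hC3f : C3 < ⊤ := ENNReal.mul_lt_top (ENNReal.rpow_lt_top_of_nonneg hp1.le hK4f.ne)
    (ENNReal.mul_lt_top h.C2fin ENNReal.ofReal_lt_top)
  have h3 : ∀ r : ℝ, R ≤ r → uu U (Bl 0 r) *
      (∫⁻ x in Bl 0 r, ENNReal.ofReal (ψ x) ^ q * sg p U x) ^ (p - 1)
      ≤ C3 * ENNReal.ofReal r ^ (2 * p) := by
    intro r hRr
    have hr : 0 < r := by linarith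
    obtain ⟨c, hc, hc2⟩ := h.two (0 - r) (2 * r) (by linarith)
    have hI : Ioo (0 - r) (0 - r + 2 * r) = Bl 0 r := by
      unfold Bl; congr 1; ring
    rw [hI, ← hq] at hc2
    have e1 : C2 * ENNReal.ofReal (2 * r) ^ (2 * p) =
        (C2 * ENNReal.ofReal (2 ^ (2 * p))) * ENNReal.ofReal r ^ (2 * p) := by
      rw [ENNReal.ofReal_mul (by norm_num), ENNReal.mul_rpow_of_nonneg _ _ (by positivity),
        ENNReal.ofReal_rpow_of_pos (by norm_num)]
      ring
    rw [e1] at hc2
    set J := ∫⁻ x in Bl 0 r, ENNReal.ofReal |x - c| ^ q * sg p U x with hJ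
    have hmeas : Measurable fun x : ℝ => ENNReal.ofReal |x - c| ^ q * sg p U x := by
      refine Measurable.mul ?_ (sg_meas h.wt.meas)
      exact (ENNReal.measurable_ofReal.comp (by fun_prop)).pow_const _
    have h4 : (∫⁻ x in Bl 0 r, ENNReal.ofReal (ψ x) ^ q * sg p U x) ≤ K4 * J := by
      calc (∫⁻ x in Bl 0 r, ENNReal.ofReal (ψ x) ^ q * sg p U x)
          ≤ ∫⁻ x in Bl 0 r, 2 ^ (q - 1) * (ENNReal.ofReal |x - c| ^ q * sg p U x +
              ENNReal.ofReal (1 + |c|) ^ q * sg p U x) := by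
            refine lintegral_mono fun x => ?_
            have h5 : ENNReal.ofReal (ψ x) ≤ ENNReal.ofReal |x - c| + ENNReal.ofReal (1 + |c|) := by
              rw [← ENNReal.ofReal_add (abs_nonneg _) (by positivity)]
              refine ENNReal.ofReal_le_ofReal ?_
              simp only [hψ]
              have : |x| ≤ |x - c| + |c| := by
                calc |x| = |(x - c) + c| := by rw [sub_add_cancel]
                  _ ≤ _ := abs_add_le _ _
              linarith
            calc ENNReal.ofReal (ψ x) ^ q * sg p U x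
                ≤ (ENNReal.ofReal |x - c| + ENNReal.ofReal (1 + |c|)) ^ q * sg p U x :=
                  mul_le_mul_left (ENNReal.rpow_le_rpow h5 hq0.le) _
              _ ≤ (2 ^ (q - 1) * (ENNReal.ofReal |x - c| ^ q + ENNReal.ofReal (1 + |c|) ^ q)) *
                    sg p U x :=
                  mul_le_mul_left (ENNReal.rpow_add_le_mul_rpow_add_rpow _ _ hq1) _
              _ = _ := by ring
        _ = 2 ^ (q - 1) * (J + ENNReal.ofReal (1 + |c|) ^ q * vv p U (Bl 0 r)) := by
            rw [lintegral_const_mul, lintegral_add_left hmeas, lintegral_const_mul _ (sg_meas h.wt.meas)]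
            · rfl
            · exact hmeas.add ((sg_meas h.wt.meas).const_mul _)
        _ ≤ 2 ^ (q - 1) * (J + (K3 * J) * m) := by
            refine mul_le_mul_right (add_le_add le_rfl ?_) _
            refine mul_le_mul' ((hdip c).trans (mul_le_mul_right ?_ _)) (hvm _)
            exact lintegral_mono_set (Ioo_subset_Ioo (by linarith) (by linarith))
        _ = K4 * J := by rw [hK4]; ring
    calc uu U (Bl 0 r) * (∫⁻ x in Bl 0 r, ENNReal.ofReal (ψ x) ^ q * sg p U x) ^ (p - 1)
        ≤ uu U (Bl 0 r) * (K4 * J) ^ (p - 1) :=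
          mul_le_mul_right (ENNReal.rpow_le_rpow h4 hp1.le) _
      _ = K4 ^ (p - 1) * (uu U (Bl 0 r) * J ^ (p - 1)) := by
          rw [ENNReal.mul_rpow_of_nonneg _ _ hp1.le]; ring
      _ ≤ K4 ^ (p - 1) * ((C2 * ENNReal.ofReal (2 ^ (2 * p))) * ENNReal.ofReal r ^ (2 * p)) :=
          mul_le_mul_right hc2 _
      _ = _ := by rw [hC3]; ring
  have hstar : ∀ r : ℝ, R ≤ r → uu (Wt p U ψ) (Bl 0 r) * (vv p (Wt p U ψ) (Bl 0 r)) ^ (p - 1) ≤
      ENNReal.ofReal (A + M) * C3 * ENNReal.ofReal r ^ p := fun r hr =>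
    star_gen hp hψ0 (by positivity) (by linarith) (uu_Bl_fin h 0 r) (hup r hr) (h3 r hr)
  set K2 : ℝ≥0∞ := ENNReal.ofReal (A + M) * C3 * ENNReal.ofReal ((17 + 16 * R) ^ p)
    with hK2
  have hK2f : K2 < ⊤ := by
    refine ENNReal.mul_lt_top (ENNReal.mul_lt_top ENNReal.ofReal_lt_top hC3f) ENNReal.ofReal_lt_top
  set K1 : ℝ≥0∞ := C1 + uu U (Bl 0 (3 * R + 3)) * m ^ (p - 1) * (ENNReal.ofReal δ ^ p)⁻¹ with hK1
  have hδp : 0 < ENNReal.ofReal δ ^ p := ENNReal.rpow_pos (ENNReal.ofReal_pos.2 hδ) ENNReal.ofReal_ne_top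
  have hδf : ENNReal.ofReal δ ^ p ≠ ⊤ := ENNReal.rpow_ne_top_of_nonneg hp0.le ENNReal.ofReal_ne_top
  have hK1f : K1 < ⊤ := by
    refine ENNReal.add_lt_top.2 ⟨h.C1fin, ENNReal.mul_lt_top (ENNReal.mul_lt_top (uu_Bl_fin h 0 _)
      (ENNReal.rpow_lt_top_of_nonneg hp1.le hm.ne)) ?_⟩
    exact ENNReal.inv_lt_top.2 hδp
  refine ⟨Wt p U ψ, ap_gen hp h.wt hψ0 hψL hK1f hK2f ?_ ?_ ?_⟩
  · intro x t ht hx
    simp only [hψ] at hx
    have fin : vv p U (Ioo x (x + t)) ≤ vv p U (Tl x (8 * t)) →
        uu U (Ioo x (x + t)) * (vv p U (Ioo x (x + t))) ^ (p - 1) ≤ K1 * ENNReal.ofReal t ^ p := by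
      intro hle
      have h1 := h.one x t ht
      rw [min_eq_left hle] at h1
      exact h1.trans (mul_le_mul_left le_self_add _)
    by_cases hta : t ≤ δ
    · apply fin
      set J := Icc (x - 8 * t) (x + 8 * t) with hJ
      have h1 : vv p U (Ioo x (x + t)) ≤ vv p U J :=
        vv_mono p U fun y hy => ⟨by linarith [hy.1], by linarith [hy.2]⟩
      have h2 := hδ2 x t hta
      have h3' : V ≤ vv p U (Tl x (8 * t)) + vv p U J := by
        unfold vv at hV ⊢
        rw [hV]
        refine (lintegral_mono_set ?_).trans (lintegral_union_le _ _ _)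
        intro y _
        by_cases hy : 8 * t < |y - x|
        · left; exact hy
        · right
          push Not at hy
          have := abs_le.1 hy
          exact ⟨by linarith [this.1], by linarith [this.2]⟩
      have h4 : vv p U J + vv p U J ≤ vv p U (Tl x (8 * t)) + vv p U J := by
        calc vv p U J + vv p U J = 2 * vv p U J := by ring
          _ ≤ V := h2
          _ ≤ _ := h3'
      have h5 : vv p U J ≤ vv p U (Tl x (8 * t)) :=
        (ENNReal.add_le_add_iff_right ((hvm _).trans_lt hm).ne).1 h4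
      exact h1.trans h5
    · by_cases hxR : 2 * R + 1 ≤ |x|
      · apply fin
        calc vv p U (Ioo x (x + t)) ≤ vv p U (Bl 0 R)ᶜ := by
              refine vv_mono p U ?_
              intro y hy hy'
              have h6 : |y| < R := by
                rw [abs_lt]; exact ⟨by linarith [hy'.1], by linarith [hy'.2]⟩
              have h7 : |x| ≤ |y| + t := by
                calc |x| = |y - (y - x)| := by congr 1; ring
                  _ ≤ |y| + |y - x| := abs_sub _ _
                  _ ≤ |y| + t := by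
                      rw [abs_of_pos (by linarith [hy.1] : 0 < y - x)]; linarith [hy.2]
              linarith
          _ ≤ vv p U (Bl 0 R) := hRc
          _ ≤ vv p U (Tl x (8 * t)) := by
              refine vv_mono p U ?_
              intro y hy
              simp only [Tl, mem_ofPred_eq]
              have h6 : |y| < R := by
                rw [abs_lt]; exact ⟨by linarith [hy.1], by linarith [hy.2]⟩
              have h7 : |x| ≤ |y| + |y - x| := by
                calc |x| = |y - (y - x)| := by congr 1; ring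
                  _ ≤ |y| + |y - x| := abs_sub _ _
              linarith
      · push Not at hxR hta
        have hsub : Ioo x (x + t) ⊆ Bl 0 (3 * R + 3) := by
          intro y hy
          have h6 := neg_abs_le x
          have h7 := le_abs_self x
          exact ⟨by linarith [hy.1], by linarith [hy.2]⟩
        have h8 : 1 ≤ (ENNReal.ofReal δ ^ p)⁻¹ * ENNReal.ofReal t ^ p := by
          calc (1 : ℝ≥0∞) = (ENNReal.ofReal δ ^ p)⁻¹ * ENNReal.ofReal δ ^ p :=
                (ENNReal.inv_mul_cancel hδp.ne' hδf).symm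
            _ ≤ _ := mul_le_mul_right (ENNReal.rpow_le_rpow
                (ENNReal.ofReal_le_ofReal hta.le) hp0.le) _
        calc uu U (Ioo x (x + t)) * (vv p U (Ioo x (x + t))) ^ (p - 1)
            ≤ uu U (Bl 0 (3 * R + 3)) * m ^ (p - 1) :=
              mul_le_mul' (uu_mono _ hsub) (ENNReal.rpow_le_rpow (hvm _) hp1.le)
          _ = uu U (Bl 0 (3 * R + 3)) * m ^ (p - 1) * 1 := (mul_one _).symm
          _ ≤ uu U (Bl 0 (3 * R + 3)) * m ^ (p - 1) *
              ((ENNReal.ofReal δ ^ p)⁻¹ * ENNReal.ofReal t ^ p) := mul_le_mul_right h8 _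
          _ = uu U (Bl 0 (3 * R + 3)) * m ^ (p - 1) * (ENNReal.ofReal δ ^ p)⁻¹ *
              ENNReal.ofReal t ^ p := by ring
          _ ≤ _ := mul_le_mul_left le_add_self _
  · intro x t ht hx
    simp only [hψ] at hx
    have hx0 := abs_nonneg x
    have hrR : R ≤ (17 + 16 * R) * t := by nlinarith
    have hsub : Ioo x (x + t) ⊆ Bl 0 ((17 + 16 * R) * t) := by
      intro y hy
      have h6 := neg_abs_le x
      have h7 := le_abs_self x
      have h8 : 17 * t ≤ (17 + 16 * R) * t := by nlinarith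
      exact ⟨by linarith [hy.1], by linarith [hy.2]⟩
    have h1 := hstar ((17 + 16 * R) * t) hrR
    calc _ ≤ uu (Wt p U ψ) (Bl 0 ((17 + 16 * R) * t)) *
          (vv p (Wt p U ψ) (Bl 0 ((17 + 16 * R) * t))) ^ (p - 1) :=
          mul_le_mul' (uu_mono _ hsub) (ENNReal.rpow_le_rpow (vv_mono p _ hsub) hp1.le)
      _ ≤ _ := h1
      _ = _ := by
          rw [hK2, ENNReal.ofReal_mul (by positivity), ENNReal.mul_rpow_of_nonneg _ _ hp0.le,
            ENNReal.ofReal_rpow_of_pos (by positivity : (0:ℝ) < 17 + 16 * R)]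
          ring
  · intro b c
    set r : ℝ := |b| + |c| + R with hr
    have hRr : R ≤ r := by
      have := abs_nonneg b; have := abs_nonneg c; linarith
    have hsub : Ioo b c ⊆ Bl 0 r := by
      intro y hy
      have h1 := neg_abs_le b
      have h2 := le_abs_self c
      have h3' := abs_nonneg b
      have h4 := abs_nonneg c
      exact ⟨by linarith [hy.1], by linarith [hy.2]⟩
    exact lt_of_le_of_lt ((uu_mono _ hsub).trans (hup r hRr)) ENNReal.ofReal_lt_top

end Pool.Agent.U481.HW
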