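import Pool.Agent.Helper458.Dav.Defs

set_option autoImplicit false

/-!
Project HW (problem MP_945c9c_an): all weights for the Hilbert transform on functions of mean zero.
Definitions and the statements of the packages.
-/

open MeasureTheory Filter Topology Set
open scoped ENNReal NNReal

namespace Pool.Agent.U481.HW

open Pool.Dav

/-- Weights: measurable, locally integrable, not almost everywhere zero. -/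
structure IsWeight (U : ℝ → ℝ≥0) : Prop where
  meas : Measurable U
  fin : ∀ a b : ℝ, (∫⁻ x in Ioo a b, (U x : ℝ≥0∞)) < ⊤
  ne : ¬ ∀ᵐ x, U x = 0

/-- The Muckenhoupt class `A_p`. -/
def Ap (p : ℝ) (W : ℝ → ℝ≥0) : Prop :=
  IsWeight W ∧ ∃ K : ℝ≥0∞, K < ⊤ ∧ ∀ a b : ℝ, a < b →
    (∫⁻ x in Ioo a b, (W x : ℝ≥0∞)) * (∫⁻ x in Ioo a b, (W x : ℝ≥0∞) ^ (-1 / (p - 1))) ^ (p - 1)
      ≤ K * ENNReal.ofReal (b - a) ^ p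

/-- `U` is admissible: the Hilbert transform is bounded in `L^p(U)` on the integrable functions of
mean zero. -/
def Admissible (p : ℝ) (U : ℝ → ℝ≥0) : Prop :=
  ∃ C : ℝ≥0∞, C < ⊤ ∧ ∀ f : ℝ → ℂ, Integrable f → ∫ x, f x = 0 →
    (∫⁻ x, ‖hilbert f x‖ₑ ^ p * (U x : ℝ≥0∞)) ≤ C * ∫⁻ x, ‖f x‖ₑ ^ p * (U x : ℝ≥0∞)

/-- The three classes of weights. -/
def Char (p : ℝ) (U : ℝ → ℝ≥0) : Prop :=
  Ap p U ∨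
  (∃ a : ℝ, ∃ W : ℝ → ℝ≥0, Ap p W ∧ ∀ᵐ x, (U x : ℝ) = |x - a| ^ p * W x) ∨
  ∃ W : ℝ → ℝ≥0, Ap p W ∧ ∀ᵐ x, (U x : ℝ) = (1 + |x|) ^ p * W x

/-! ### Part 1: maximal functions -/

/-- Uncentred maximal function with respect to the measure `μ`. -/
noncomputable def MM (μ : Measure ℝ) (f : ℝ → ℝ≥0∞) (x : ℝ) : ℝ≥0∞ :=
  ⨆ (a : ℝ) (b : ℝ) (_ : a < x ∧ x < b), (∫⁻ y in Ioo a b, f y ∂μ) / μ (Ioo a b)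

/-- `A_p` with constant `K` for an extended weight, both integrals locally finite. -/
structure ApC (p : ℝ) (w : ℝ → ℝ≥0∞) (K : ℝ≥0∞) : Prop where
  meas : Measurable w
  fin : ∀ a b : ℝ, (∫⁻ x in Ioo a b, w x) < ⊤
  sfin : ∀ a b : ℝ, (∫⁻ x in Ioo a b, (w x) ^ (-1 / (p - 1))) < ⊤
  Kfin : K < ⊤
  ap : ∀ a b : ℝ, a < b →
    (∫⁻ x in Ioo a b, w x) * (∫⁻ x in Ioo a b, (w x) ^ (-1 / (p - 1))) ^ (p - 1)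
      ≤ K * ENNReal.ofReal (b - a) ^ p

/-- PACKAGE WEAK. -/
def S_weak : Prop := ∀ μ : Measure ℝ, (∀ a b : ℝ, μ (Ioo a b) < ⊤) →
  ∀ f : ℝ → ℝ≥0∞, Measurable f → ∀ t : ℝ≥0∞, t * μ {x | t < MM μ f x} ≤ 2 * ∫⁻ y, f y ∂μ

/-- PACKAGE STRONG: `S_weak → S_strong`. -/
def S_strong : Prop := ∀ q : ℝ, 1 < q → ∃ C : ℝ≥0∞, C < ⊤ ∧
  ∀ μ : Measure ℝ, (∀ a b : ℝ, μ (Ioo a b) < ⊤) → ∀ f : ℝ → ℝ≥0∞, Measurable f →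
    (∫⁻ x, (MM μ f x) ^ q ∂μ) ≤ C * ∫⁻ x, (f x) ^ q ∂μ

/-- PACKAGE MUCK: `S_strong → S_muck`. -/
def S_muck : Prop := ∀ p : ℝ, 1 < p → ∀ (w : ℝ → ℝ≥0∞) (K : ℝ≥0∞), ApC p w K →
  ∃ C : ℝ≥0∞, C < ⊤ ∧ ∀ f : ℝ → ℝ≥0∞, Measurable f →
    (∫⁻ x, (MM volume f x) ^ p * w x) ≤ C * ∫⁻ x, (f x) ^ p * w x

/-! ### Part 2: sparse domination of the Hilbert transform -/

/-- Dyadic interval `[j 2^n, (j+1) 2^n)`, `q = (n, j)`. -/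
def DD (q : ℤ × ℤ) : Set ℝ := Ico ((q.2 : ℝ) * 2 ^ q.1) (((q.2 : ℝ) + 1) * 2 ^ q.1)

/-- The triple interval. -/
def D3 (q : ℤ × ℤ) : Set ℝ := Ico (((q.2 : ℝ) - 1) * 2 ^ q.1) (((q.2 : ℝ) + 2) * 2 ^ q.1)

/-- Average of `‖f‖` over the triple interval. -/
noncomputable def av (f : ℝ → ℂ) (q : ℤ × ℤ) : ℝ≥0∞ := (∫⁻ y in D3 q, ‖f y‖ₑ) / volume (D3 q)

/-- `f` restricted to the triple interval. -/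
noncomputable def lo (f : ℝ → ℂ) (q : ℤ × ℤ) : ℝ → ℂ := (D3 q).indicator f

/-- PACKAGE LIN: almost everywhere additivity (from the a.e. existence in the library `Pool.Dav`). -/
def S_lin : Prop := ∀ f g : ℝ → ℂ, Integrable f → Integrable g →
  ∀ᵐ x, hilbert (fun y => f y + g y) x = hilbert f x + hilbert g x

/-- PACKAGE WHIL: weak type (1,1) of the Hilbert transform (from the library `Pool.Dav`, `upper`). -/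
def S_whil : Prop := ∃ C : ℝ≥0∞, C < ⊤ ∧ ∀ f : ℝ → ℂ, Integrable f → ∀ t : ℝ≥0∞,
  t * volume {x | t < ‖hilbert f x‖ₑ} ≤ C * ∫⁻ y, ‖f y‖ₑ

/-- PACKAGE KERNEL. -/
def S_kernel : Prop := ∃ C : ℝ≥0∞, C < ⊤ ∧ ∀ g : ℝ → ℂ, Integrable g → ∀ r : ℤ × ℤ,
  (∀ y ∈ D3 r, g y = 0) → ∀ x ∈ DD r, ∀ x' ∈ DD r,
    ‖hilbert g x - hilbert g x'‖ₑ ≤ C * MM volume (fun y => ‖g y‖ₑ) x'

/-- PACKAGE STOP. -/
def S_stop : Prop := ∀ (q : ℤ × ℤ) (E : Set ℝ), MeasurableSet E → E ⊆ DD q →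
  16 * volume E ≤ volume (DD q) →
  ∃ F : Set (ℤ × ℤ), (∀ r ∈ F, DD r ⊆ DD q ∧ D3 r ⊆ D3 q) ∧ F.PairwiseDisjoint DD ∧
    2 * volume (⋃ r ∈ F, DD r) ≤ volume (DD q) ∧
    (∀ r ∈ F, 2 * volume (DD r ∩ E) ≤ volume (DD r)) ∧
    ∀ᵐ x, x ∈ E → ∃ r ∈ F, x ∈ DD r

/-- PACKAGE STEP: `S_weak → S_lin → S_whil → S_kernel → S_stop → S_step`. -/
def S_step : Prop := ∃ C : ℝ≥0∞, C < ⊤ ∧ ∀ f : ℝ → ℂ, Integrable f → ∀ q : ℤ × ℤ,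
  ∃ F : Set (ℤ × ℤ), (∀ r ∈ F, DD r ⊆ DD q) ∧ F.PairwiseDisjoint DD ∧
    2 * volume (⋃ r ∈ F, DD r) ≤ volume (DD q) ∧
    (∀ᵐ x, x ∈ DD q → (∀ r ∈ F, x ∉ DD r) → ‖hilbert (lo f q) x‖ₑ ≤ C * av f q) ∧
    ∀ r ∈ F, ∀ᵐ x, x ∈ DD r →
      ‖hilbert (lo f q) x‖ₑ ≤ ‖hilbert (lo f r) x‖ₑ + C * av f q

/-- Sparse families in generations. -/
structure Sparse (q : ℤ × ℤ) (G : ℕ → Set (ℤ × ℤ)) : Prop where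
  sub : ∀ k, ∀ r ∈ G k, DD r ⊆ DD q
  disj : ∀ k, (G k).PairwiseDisjoint DD
  half : ∀ k, ∀ r ∈ G k, 2 * volume (DD r ∩ ⋃ s ∈ G (k + 1), DD s) ≤ volume (DD r)
  anti : ∀ k, (⋃ s ∈ G (k + 1), DD s) ⊆ ⋃ s ∈ G k, DD s

/-- The sparse sum. -/
noncomputable def SS (f : ℝ → ℂ) (G : ℕ → Set (ℤ × ℤ)) (x : ℝ) : ℝ≥0∞ :=
  ∑' k : ℕ, ∑' r : G k, (DD r.1).indicator (fun _ => av f r.1) x

/-- PACKAGE ITER: `S_step → S_iter`. -/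
def S_iter : Prop := ∃ C : ℝ≥0∞, C < ⊤ ∧ ∀ f : ℝ → ℂ, Integrable f → ∀ q : ℤ × ℤ,
  ∃ G : ℕ → Set (ℤ × ℤ), Sparse q G ∧
    ∀ᵐ x, x ∈ DD q → ‖hilbert (lo f q) x‖ₑ ≤ C * SS f G x

/-- PACKAGE SUM: `S_strong → S_muck → S_sum`. -/
def S_sum : Prop := ∀ p : ℝ, 1 < p → ∀ (w : ℝ → ℝ≥0∞) (K : ℝ≥0∞), ApC p w K →
  ∃ C : ℝ≥0∞, C < ⊤ ∧ ∀ f : ℝ → ℂ, Integrable f → ∀ (q : ℤ × ℤ) (G : ℕ → Set (ℤ × ℤ)),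
    Sparse q G → (∫⁻ x in DD q, (SS f G x) ^ p * w x) ≤ C * ∫⁻ x, ‖f x‖ₑ ^ p * w x

/-- PACKAGE HMW: `S_iter → S_sum → S_hmw`. -/
def S_hmw : Prop := ∀ p : ℝ, 1 < p → ∀ (w : ℝ → ℝ≥0∞) (K : ℝ≥0∞), ApC p w K →
  ∃ C : ℝ≥0∞, C < ⊤ ∧ ∀ f : ℝ → ℂ, Integrable f → (∃ R : ℝ, ∀ x, R < |x| → f x = 0) →
    (∫⁻ x, ‖hilbert f x‖ₑ ^ p * w x) ≤ C * ∫⁻ x, ‖f x‖ₑ ^ p * w x

/-- PACKAGE EXT: `S_hmw → S_ext`. -/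
def S_ext : Prop := ∀ p : ℝ, 1 < p → ∀ W : ℝ → ℝ≥0, Ap p W →
  ∃ C : ℝ≥0∞, C < ⊤ ∧ ∀ g : ℝ → ℂ, AEStronglyMeasurable g volume →
    Integrable (fun y => g y / ((1 + |y| : ℝ) : ℂ)) →
    (∫⁻ x, ‖hilbert g x‖ₑ ^ p * (W x : ℝ≥0∞)) ≤ C * ∫⁻ x, ‖g x‖ₑ ^ p * (W x : ℝ≥0∞)

/-- PACKAGE SUF: `S_ext → S_suf`. -/
def S_suf : Prop := ∀ p : ℝ, 1 < p → ∀ U : ℝ → ℝ≥0, IsWeight U → Char p U → Admissible p U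

/-! ### Part 3: necessity -/

/-- The dual weight `U^(-1/(p-1))`. -/
noncomputable def sg (p : ℝ) (U : ℝ → ℝ≥0) (x : ℝ) : ℝ≥0∞ := (U x : ℝ≥0∞) ^ (-1 / (p - 1))

/-- PACKAGE DBL. -/
def S_dbl : Prop := ∀ p : ℝ, 1 < p → ∀ U : ℝ → ℝ≥0, IsWeight U → Admissible p U →
  ∃ C : ℝ≥0∞, C < ⊤ ∧ ∀ a h : ℝ, 0 < h →
    (∫⁻ x in Ioo a (a + h), (U x : ℝ≥0∞)) ≤ C * (∫⁻ x in Ioo (a + h) (a + 2 * h), (U x : ℝ≥0∞)) ∧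
    (∫⁻ x in Ioo (a + h) (a + 2 * h), (U x : ℝ≥0∞)) ≤ C * ∫⁻ x in Ioo a (a + h), (U x : ℝ≥0∞)

/-- PACKAGE POS. -/
def S_pos : Prop := ∀ p : ℝ, 1 < p → ∀ U : ℝ → ℝ≥0, IsWeight U → Admissible p U → ∀ᵐ x, U x ≠ 0

/-- PACKAGE ONE: `S_dbl → S_pos → S_one`. -/
def S_one : Prop := ∀ p : ℝ, 1 < p → ∀ U : ℝ → ℝ≥0, IsWeight U → Admissible p U →
  ∃ C : ℝ≥0∞, C < ⊤ ∧ ∀ a h : ℝ, 0 < h →
    (∫⁻ x in Ioo a (a + h), (U x : ℝ≥0∞)) *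
      (min (∫⁻ x in Ioo a (a + h), sg p U x) (∫⁻ x in {y : ℝ | 8 * h < |y - a|}, sg p U x)) ^ (p - 1)
      ≤ C * ENNReal.ofReal h ^ p

/-- PACKAGE TWO: `S_dbl → S_pos → S_two`. -/
def S_two : Prop := ∀ p : ℝ, 1 < p → ∀ U : ℝ → ℝ≥0, IsWeight U → Admissible p U →
  ∃ C : ℝ≥0∞, C < ⊤ ∧ ∀ a h : ℝ, 0 < h → ∃ c ∈ Icc a (a + h),
    (∫⁻ x in Ioo a (a + h), (U x : ℝ≥0∞)) *
      (∫⁻ x in Ioo a (a + h), ENNReal.ofReal |x - c| ^ (p / (p - 1)) * sg p U x) ^ (p - 1)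
      ≤ C * ENNReal.ofReal h ^ (2 * p)

/-- PACKAGE NEC (helper481): `S_dbl → S_pos → S_one → S_two → S_nec`. -/
def S_nec : Prop := ∀ p : ℝ, 1 < p → ∀ U : ℝ → ℝ≥0, IsWeight U → Admissible p U → Char p U

/-- Assembly. -/
theorem assembly (h_weak : S_weak) (h_strong : S_weak → S_strong) (h_muck : S_strong → S_muck)
    (h_lin : S_lin) (h_whil : S_whil) (h_kernel : S_kernel) (h_stop : S_stop)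
    (h_step : S_weak → S_lin → S_whil → S_kernel → S_stop → S_step) (h_iter : S_step → S_iter)
    (h_sum : S_strong → S_muck → S_sum) (h_hmw : S_iter → S_sum → S_hmw) (h_ext : S_hmw → S_ext)
    (h_suf : S_ext → S_suf) (h_dbl : S_dbl) (h_pos : S_pos) (h_one : S_dbl → S_pos → S_one)
    (h_two : S_dbl → S_pos → S_two) (h_nec : S_dbl → S_pos → S_one → S_two → S_nec)
    (p : ℝ) (hp : 1 < p) (U : ℝ → ℝ≥0) (hU : IsWeight U) : Admissible p U ↔ Char p U :=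
  ⟨h_nec h_dbl h_pos (h_one h_dbl h_pos) (h_two h_dbl h_pos) p hp U hU,
   h_suf (h_ext (h_hmw (h_iter (h_step h_weak h_lin h_whil h_kernel h_stop))
     (h_sum (h_strong h_weak) (h_muck (h_strong h_weak))))) p hp U hU⟩

end Pool.Agent.U481.HW
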