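import Pool.Agent.U481.HW.Stm

set_option autoImplicit false

/-!
Project HW, second route for the sparse domination: all statements for the smooth truncations `QQ f δ`
(conjugate Poisson integrals), uniformly in `δ > 0`, so that the a.e. existence of the principal value
is not needed.
-/

open MeasureTheory Filter Topology Set
open scoped ENNReal NNReal

namespace Pool.Agent.U481.HW

open Pool.Dav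

/-- PACKAGE WHILQ: uniform weak type (1,1) of the conjugate Poisson integrals (library `Pool.Dav`). -/
def S_whilQ : Prop := ∃ C : ℝ≥0∞, C < ⊤ ∧ ∀ δ : ℝ, 0 < δ → ∀ f : ℝ → ℂ, Integrable f → ∀ t : ℝ≥0∞,
  t * volume {x | t < ‖QQ f δ x‖ₑ} ≤ C * ∫⁻ y, ‖f y‖ₑ

/-- PACKAGE KERNELQ. -/
def S_kernelQ : Prop := ∃ C : ℝ≥0∞, C < ⊤ ∧ ∀ δ : ℝ, 0 < δ → ∀ g : ℝ → ℂ, Integrable g →
  ∀ r : ℤ × ℤ, (∀ y ∈ D3 r, g y = 0) → ∀ x ∈ DD r, ∀ x' ∈ DD r,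
    ‖QQ g δ x - QQ g δ x'‖ₑ ≤ C * MM volume (fun y => ‖g y‖ₑ) x'

/-- PACKAGE STEPQ: `S_weak → S_whilQ → S_kernelQ → S_stop → S_stepQ`. -/
def S_stepQ : Prop := ∃ C : ℝ≥0∞, C < ⊤ ∧ ∀ δ : ℝ, 0 < δ → ∀ f : ℝ → ℂ, Integrable f →
  ∀ q : ℤ × ℤ, ∃ F : Set (ℤ × ℤ), (∀ r ∈ F, DD r ⊆ DD q) ∧ F.PairwiseDisjoint DD ∧
    2 * volume (⋃ r ∈ F, DD r) ≤ volume (DD q) ∧
    (∀ᵐ x, x ∈ DD q → (∀ r ∈ F, x ∉ DD r) → ‖QQ (lo f q) δ x‖ₑ ≤ C * av f q) ∧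
    ∀ r ∈ F, ∀ᵐ x, x ∈ DD r →
      ‖QQ (lo f q) δ x‖ₑ ≤ ‖QQ (lo f r) δ x‖ₑ + C * av f q

/-- PACKAGE ITERQ: `S_stepQ → S_iterQ`. -/
def S_iterQ : Prop := ∃ C : ℝ≥0∞, C < ⊤ ∧ ∀ δ : ℝ, 0 < δ → ∀ f : ℝ → ℂ, Integrable f →
  ∀ q : ℤ × ℤ, ∃ G : ℕ → Set (ℤ × ℤ), Sparse q G ∧
    ∀ᵐ x, x ∈ DD q → ‖QQ (lo f q) δ x‖ₑ ≤ C * SS f G x

/-- PACKAGE HMWQ: `S_iterQ → S_sum → S_hmwQ`. -/
def S_hmwQ : Prop := ∀ p : ℝ, 1 < p → ∀ (w : ℝ → ℝ≥0∞) (K : ℝ≥0∞), ApC p w K →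
  ∃ C : ℝ≥0∞, C < ⊤ ∧ ∀ δ : ℝ, 0 < δ → ∀ f : ℝ → ℂ, Integrable f →
    (∃ R : ℝ, ∀ x, R < |x| → f x = 0) →
    (∫⁻ x, ‖QQ f δ x‖ₑ ^ p * w x) ≤ C * ∫⁻ x, ‖f x‖ₑ ^ p * w x

/-- Assembly by the second route. -/
theorem assembly2 (h_weak : S_weak) (h_strong : S_weak → S_strong) (h_muck : S_strong → S_muck)
    (h_whil : S_whilQ) (h_kernel : S_kernelQ) (h_stop : S_stop)
    (h_step : S_weak → S_whilQ → S_kernelQ → S_stop → S_stepQ) (h_iter : S_stepQ → S_iterQ)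
    (h_sum : S_strong → S_muck → S_sum) (h_hmwQ : S_iterQ → S_sum → S_hmwQ)
    (h_lim : S_hmwQ → S_hmw) (h_ext : S_hmw → S_ext)
    (h_suf : S_ext → S_suf) (h_dbl : S_dbl) (h_pos : S_pos) (h_one : S_dbl → S_pos → S_one)
    (h_two : S_dbl → S_pos → S_two) (h_nec : S_dbl → S_pos → S_one → S_two → S_nec)
    (p : ℝ) (hp : 1 < p) (U : ℝ → ℝ≥0) (hU : IsWeight U) : Admissible p U ↔ Char p U :=
  ⟨h_nec h_dbl h_pos (h_one h_dbl h_pos) (h_two h_dbl h_pos) p hp U hU,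
   h_suf (h_ext (h_lim (h_hmwQ (h_iter (h_step h_weak h_whil h_kernel h_stop))
     (h_sum (h_strong h_weak) (h_muck (h_strong h_weak)))))) p hp U hU⟩

end Pool.Agent.U481.HW
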